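import Mathlib

/-! Unnormalised Legendre polynomials `D^N (X^2-1)^N` and the integral functional on `[-1,1]`. -/

set_option autoImplicit false

open Polynomial

namespace Pool.Agent.Lib.MP_ff3579_an

/-- the integral over `[-1,1]` -/
noncomputable def J (P : ℝ[X]) : ℝ := ∫ x in (-1 : ℝ)..1, P.eval x

lemma J_intervalIntegrable (P : ℝ[X]) (a b : ℝ) :
    IntervalIntegrable (fun x => P.eval x) MeasureTheory.volume a b :=
  P.continuous.intervalIntegrable a b

lemma J_add (P Q : ℝ[X]) : J (P + Q) = J P + J Q := by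
  unfold J
  simp only [eval_add]
  exact intervalIntegral.integral_add (J_intervalIntegrable P _ _) (J_intervalIntegrable Q _ _)

lemma J_smul (c : ℝ) (P : ℝ[X]) : J (C c * P) = c * J P := by
  unfold J
  simp only [eval_mul, eval_C]
  exact intervalIntegral.integral_const_mul c _

lemma J_zero : J 0 = 0 := by
  have := J_smul 0 0
  simpa using this

lemma J_neg (P : ℝ[X]) : J (-P) = - J P := by
  have := J_smul (-1) P
  simpa using this

lemma J_sub (P Q : ℝ[X]) : J (P - Q) = J P - J Q := by
  rw [sub_eq_add_neg, J_add, J_neg, sub_eq_add_neg]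

lemma J_derivative (P : ℝ[X]) : J (derivative P) = P.eval 1 - P.eval (-1) := by
  unfold J
  exact intervalIntegral.integral_eq_sub_of_hasDerivAt (fun x _ => P.hasDerivAt x)
    (J_intervalIntegrable _ _ _)

/-- integration by parts -/
lemma J_parts (P Q : ℝ[X]) : J (derivative P * Q) =
    P.eval 1 * Q.eval 1 - P.eval (-1) * Q.eval (-1) - J (P * derivative Q) := by
  have h := J_derivative (P * Q)
  rw [derivative_mul, J_add] at h
  simp only [eval_mul] at h
  linarith

lemma J_sq_nonneg (P : ℝ[X]) : 0 ≤ J (P * P) := by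
  unfold J
  apply intervalIntegral.integral_nonneg (by norm_num)
  intro x _
  rw [eval_mul]; exact mul_self_nonneg _

lemma J_pos_of_nonneg {P : ℝ[X]} (hP : P ≠ 0) (h : ∀ x ∈ Set.Icc (-1 : ℝ) 1, 0 ≤ P.eval x) :
    0 < J P := by
  unfold J
  -- there is a point in `[-1,1]` which is not a root
  obtain ⟨x, hx, hx0⟩ : ∃ x ∈ Set.Icc (-1 : ℝ) 1, P.eval x ≠ 0 := by
    by_contra hcon
    push Not at hcon
    apply hP
    apply Polynomial.eq_zero_of_infinite_isRoot
    refine (Set.Icc_infinite (by norm_num : (-1 : ℝ) < 1)).mono ?_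
    intro x hx
    exact hcon x hx
  apply intervalIntegral.integral_pos (by norm_num) P.continuousOn
  · intro y hy
    exact h y ⟨hy.1.le, hy.2⟩
  · exact ⟨x, hx, lt_of_le_of_ne (h x hx) (Ne.symm hx0)⟩

lemma J_sq_pos {P : ℝ[X]} (hP : P ≠ 0) : 0 < J (P * P) :=
  J_pos_of_nonneg (mul_ne_zero hP hP) fun x _ => by rw [eval_mul]; exact mul_self_nonneg _

lemma eq_zero_of_J_sq {P : ℝ[X]} (h : J (P * P) = 0) : P = 0 := by
  by_contra hP
  have := J_sq_pos hP
  linarith

/-- the unnormalised Legendre polynomial -/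
noncomputable def Leg (N : ℕ) : ℝ[X] := derivative^[N] ((X ^ 2 - 1) ^ N)

lemma base_factor (N : ℕ) : ((X ^ 2 - 1) ^ N : ℝ[X]) = (X - C 1) ^ N * (X - C (-1)) ^ N := by
  rw [← mul_pow]; congr 1; simp; ring

/-- vanishing at the endpoints -/
lemma iterate_vanish {N k : ℕ} (hk : k < N) (e : ℝ) (he : e = 1 ∨ e = -1) :
    (derivative^[k] ((X ^ 2 - 1) ^ N : ℝ[X])).eval e = 0 := by
  have h1 : (X ^ 2 - 1 : ℝ[X]) ^ (N - k) ∣ derivative^[k] ((X ^ 2 - 1) ^ N : ℝ[X]) :=
    pow_sub_dvd_iterate_derivative_pow _ N k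
  obtain ⟨q, hq⟩ := h1
  rw [hq, eval_mul, eval_pow]
  have : (X ^ 2 - 1 : ℝ[X]).eval e = 0 := by
    rcases he with rfl | rfl <;> simp
  rw [this, zero_pow (by omega), zero_mul]

lemma J_iterate_parts {N : ℕ} (k : ℕ) (hk : k ≤ N) (Q : ℝ[X]) :
    J (derivative^[N] ((X ^ 2 - 1) ^ N : ℝ[X]) * Q) =
      (-1) ^ k * J (derivative^[N - k] ((X ^ 2 - 1) ^ N : ℝ[X]) * derivative^[k] Q) := by
  induction k with
  | zero => simp
  | succ k ih =>
    rw [ih (by omega)]
    have e : N - k = (N - (k + 1)) + 1 := by omega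
    rw [e, Function.iterate_succ_apply' (derivative (R := ℝ)) (N - (k + 1)), J_parts,
      iterate_vanish (by omega) 1 (Or.inl rfl), iterate_vanish (by omega) (-1) (Or.inr rfl),
      Function.iterate_succ_apply' (derivative (R := ℝ)) k]
    ring

/-- orthogonality -/
lemma J_Leg_mul_of_lt {N : ℕ} {Q : ℝ[X]} (hQ : Q.natDegree < N) : J (Leg N * Q) = 0 := by
  unfold Leg
  rw [J_iterate_parts N le_rfl Q, iterate_derivative_eq_zero hQ, mul_zero, J_zero, mul_zero]

lemma J_Leg_mul_X_pow (N : ℕ) : 0 < J (Leg N * X ^ N) := by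
  unfold Leg
  rw [J_iterate_parts N le_rfl (X ^ N), Nat.sub_self, Function.iterate_zero, id]
  have h1 : derivative^[N] (X ^ N : ℝ[X]) = C (N.factorial : ℝ) := by
    rw [iterate_derivative_X_pow_eq_natCast_mul]
    simp [Nat.descFactorial_self]
  rw [h1]
  have h2 : (X ^ 2 - 1 : ℝ[X]) ^ N * C (N.factorial : ℝ) = C ((-1) ^ N * N.factorial : ℝ)
      * (1 - X ^ 2) ^ N := by
    rw [C_mul, C_pow, C_neg, C_1]
    have : (X ^ 2 - 1 : ℝ[X]) = (-1) * (1 - X ^ 2) := by ring
    rw [this, mul_pow]; ring
  rw [h2, J_smul, ← mul_assoc, ← mul_assoc, ← mul_pow]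
  have h3 : 0 < J ((1 - X ^ 2) ^ N) := by
    apply J_pos_of_nonneg
    · apply pow_ne_zero
      intro h
      have := congrArg (eval 0) h
      simp at this
    · intro x hx
      rw [eval_pow]
      apply pow_nonneg
      simp only [eval_sub, eval_one, eval_pow, eval_X]
      nlinarith [hx.1, hx.2]
  have : (0 : ℝ) < N.factorial := by positivity
  norm_num
  positivity

lemma natDegree_base (N : ℕ) : ((X ^ 2 - 1) ^ N : ℝ[X]).natDegree = 2 * N := by
  have h : (X ^ 2 - 1 : ℝ[X]).natDegree = 2 := by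
    have : (X ^ 2 - 1 : ℝ[X]) = X ^ 2 - C 1 := by simp
    rw [this, natDegree_X_pow_sub_C]
  rw [natDegree_pow, h, mul_comm]

lemma natDegree_Leg_le (N : ℕ) : (Leg N).natDegree ≤ N := by
  unfold Leg
  refine (natDegree_iterate_derivative _ _).trans ?_
  rw [natDegree_base]; omega

lemma coeff_Leg_pos (N : ℕ) : 0 < (Leg N).coeff N := by
  unfold Leg
  rw [coeff_iterate_derivative]
  have h1 : ((X ^ 2 - 1) ^ N : ℝ[X]).coeff (N + N) = 1 := by
    have hm : ((X ^ 2 - 1) ^ N : ℝ[X]).Monic := by
      apply Monic.pow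
      have : (X ^ 2 - 1 : ℝ[X]) = X ^ 2 - C 1 := by simp
      rw [this]
      exact monic_X_pow_sub_C _ (by norm_num)
    have := hm.coeff_natDegree
    rw [natDegree_base] at this
    rw [← two_mul]; exact this
  rw [h1]
  have : 0 < (N + N).descFactorial N := Nat.descFactorial_pos.2 (by omega)
  simp only [nsmul_eq_mul, mul_one]
  exact_mod_cast this

/-- parity -/
lemma Leg_comp_neg (N : ℕ) : (Leg N).comp (-X) = (-1) ^ N * Leg N := by
  have h : ∀ (k : ℕ) (P : ℝ[X]), (derivative^[k] P).comp (-X) =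
      (-1) ^ k * derivative^[k] (P.comp (-X)) := by
    intro k
    induction k with
    | zero => intro P; simp
    | succ k ih =>
      intro P
      rw [Function.iterate_succ_apply', Function.iterate_succ_apply']
      have h1 : derivative ((derivative^[k] P).comp (-X)) =
          - (derivative (derivative^[k] P)).comp (-X) := by
        rw [derivative_comp]; simp
      rw [ih P] at h1
      have h3 : derivative ((-1) ^ k * derivative^[k] (P.comp (-X)) : ℝ[X])
          = (-1) ^ k * derivative (derivative^[k] (P.comp (-X))) := by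
        have : ((-1) ^ k : ℝ[X]) = C ((-1) ^ k) := by simp
        rw [this, derivative_C_mul]
      rw [h3] at h1
      rw [pow_succ]
      linear_combination (1 : ℝ[X]) * h1
  unfold Leg
  rw [h]
  congr 2
  simp

/-- values of the derivatives at `1` -/
lemma iterate_Leg_eval_one (N k : ℕ) (hk : k ≤ N) :
    (derivative^[k] (Leg N)).eval 1 =
      ((N + k).choose N * N.factorial * N.descFactorial k : ℕ) * 2 ^ (N - k) := by
  unfold Leg
  rw [← Function.iterate_add_apply, base_factor, iterate_derivative_mul, eval_finsetSum]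
  rw [Finset.sum_eq_single k]
  · rw [show k + N - k = N by omega]
    have e1 : (derivative^[N] ((X - C 1) ^ N : ℝ[X])) = C (N.factorial : ℝ) := by
      rw [iterate_derivative_X_sub_pow]
      simp [Nat.descFactorial_self]
    have e2 : (derivative^[k] ((X - C (-1)) ^ N : ℝ[X])) =
        (N.descFactorial k : ℝ[X]) * (X - C (-1)) ^ (N - k) := by
      rw [iterate_derivative_X_sub_pow]; simp
    rw [e1, e2]
    simp only [nsmul_eq_mul, eval_mul, eval_natCast, eval_C, eval_pow, eval_sub, eval_X]
    have e3 : (k + N).choose k = (N + k).choose N := by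
      rw [add_comm k N, ← Nat.choose_symm_add]
    rw [e3]
    push_cast
    norm_num
    ring
  · intro b hb hbk
    rw [Finset.mem_range] at hb
    rcases lt_or_gt_of_ne hbk with hlt | hgt
    · -- more than `N` derivatives on the first factor
      have : derivative^[k + N - b] ((X - C 1) ^ N : ℝ[X]) = 0 := by
        apply iterate_derivative_eq_zero
        rw [natDegree_pow, natDegree_X_sub_C]; omega
      rw [this]; simp
    · have h1 : (derivative^[k + N - b] ((X - C 1) ^ N : ℝ[X])).eval 1 = 0 := by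
        rw [iterate_derivative_X_sub_pow]
        simp only [nsmul_eq_mul, eval_mul, eval_pow, eval_sub, eval_X, eval_C, sub_self]
        rw [zero_pow (by omega), mul_zero]
      simp only [nsmul_eq_mul, eval_mul, h1]
      ring
  · intro hk'
    exfalso
    apply hk'
    rw [Finset.mem_range]; omega

lemma Leg_eval_one (N : ℕ) : (Leg N).eval 1 = N.factorial * 2 ^ N := by
  have := iterate_Leg_eval_one N 0 (Nat.zero_le _)
  simpa using this

lemma Leg_eval_one_pos (N : ℕ) : 0 < (Leg N).eval 1 := by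
  rw [Leg_eval_one]; positivity

lemma Leg_eval_neg_one (N : ℕ) : (Leg N).eval (-1) = (-1) ^ N * (Leg N).eval 1 := by
  have := congrArg (eval 1) (Leg_comp_neg N)
  simpa [eval_comp] using this

end Pool.Agent.Lib.MP_ff3579_an
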