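import Mathlib
import Pool.Agent.Lib.MP_ff3579_an.Rodrigues

/-! Euler–Lagrange equation of the L2 Markov problem. -/

set_option autoImplicit false

open Polynomial

namespace Pool.Agent.Lib.MP_ff3579_an

/-- Euler–Lagrange equation -/
def EL (n : ℕ) (l : ℝ) (P : ℝ[X]) : Prop :=
  P.natDegree ≤ n ∧ ∀ Q : ℝ[X], Q.natDegree ≤ n →
    J (derivative P * derivative Q) = l * J (P * Q)

def HasParity (n : ℕ) (P : ℝ[X]) : Prop := P.comp (-X) = (-1) ^ n * P

lemma HasParity.eval_neg {n : ℕ} {P : ℝ[X]} (h : HasParity n P) (x : ℝ) :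
    P.eval (-x) = (-1) ^ n * P.eval x := by
  have := congrArg (eval x) h
  simpa [eval_comp] using this

lemma neg_one_pow_eq_C (n : ℕ) : ((-1) ^ n : ℝ[X]) = C ((-1) ^ n) := by simp

lemma HasParity.derivative {n : ℕ} {P : ℝ[X]} (h : HasParity n P) :
    HasParity (n + 1) (derivative P) := by
  have h1 := congrArg Polynomial.derivative h
  rw [neg_one_pow_eq_C, derivative_C_mul, derivative_comp] at h1
  unfold HasParity
  simp only [derivative_neg, derivative_X] at h1
  rw [neg_one_pow_eq_C, pow_succ, C_mul]
  simp only [C_neg, C_1] at *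
  linear_combination (-1 : ℝ[X]) * h1

lemma J_comp_neg (P : ℝ[X]) : J (P.comp (-X)) = J P := by
  unfold J
  simp only [eval_comp, eval_neg, eval_X]
  have := intervalIntegral.integral_comp_neg (f := fun x => P.eval x) (a := (-1 : ℝ)) (b := 1)
  simpa using this

lemma eq_zero_of_ode {R : ℝ[X]} {l : ℝ} (hl : l ≠ 0)
    (h : derivative (derivative R) + C l * R = 0) : R = 0 := by
  by_contra hR
  have h1 := congrArg (fun P => P.coeff R.natDegree) h
  simp only [coeff_add, coeff_C_mul, coeff_zero] at h1
  have h2 : (derivative (derivative R)).coeff R.natDegree = 0 := by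
    rw [coeff_derivative, coeff_derivative,
      coeff_eq_zero_of_natDegree_lt (show R.natDegree < R.natDegree + 1 + 1 by omega)]
    ring
  rw [h2, zero_add] at h1
  rcases mul_eq_zero.1 h1 with h3 | h3
  · exact hl h3
  · exact hR (leadingCoeff_eq_zero.1 h3)

/-- The Euler-Lagrange equation in differential form. -/
lemma EL.ode {n : ℕ} {l : ℝ} {P : ℝ[X]} (h : EL n l P) (hp : HasParity n P) :
    derivative (derivative P) + C l * P =
      C ((derivative P).eval 1 / (Leg (n + 1)).eval 1) * derivative (Leg (n + 1)) := by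
  set L := Leg (n + 1) with hL
  have hL1 : 0 < L.eval 1 := Leg_eval_one_pos _
  set c := (derivative P).eval 1 / L.eval 1 with hc
  have hcL : c * L.eval 1 = (derivative P).eval 1 := by rw [hc]; field_simp
  set W := derivative (derivative P) + C l * P - C c * derivative L with hW
  have hPd : (derivative P).natDegree ≤ n := (natDegree_derivative_le P).trans (by have := h.1; omega)
  have hLd : (derivative L).natDegree ≤ n := by
    have h1 : L.natDegree ≤ n + 1 := natDegree_Leg_le (n + 1)
    exact (natDegree_derivative_le L).trans (by omega)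
  have hWn : W.natDegree ≤ n := by
    rw [hW]
    refine (natDegree_sub_le _ _).trans (max_le ?_ ?_)
    · refine (natDegree_add_le _ _).trans (max_le ?_ ?_)
      · exact (natDegree_derivative_le _).trans (by omega)
      · exact (natDegree_C_mul_le _ _).trans h.1
    · exact (natDegree_C_mul_le _ _).trans hLd
  have key : ∀ Q : ℝ[X], Q.natDegree ≤ n → J (W * Q) = 0 := by
    intro Q hQ
    have e1 := J_parts (derivative P) Q
    have e2 := J_parts L Q
    have e3 : J (L * derivative Q) = 0 :=
      J_Leg_mul_of_lt (lt_of_le_of_lt ((natDegree_derivative_le Q).trans (Nat.sub_le _ _))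
        (by omega))
    have e4 := h.2 Q hQ
    have e5 : (derivative P).eval (-1) = (-1) ^ (n + 1) * (derivative P).eval 1 := by
      have := hp.derivative.eval_neg 1
      simpa using this
    have e6 : L.eval (-1) = (-1) ^ (n + 1) * L.eval 1 := Leg_eval_neg_one _
    have e7 : W * Q = derivative (derivative P) * Q + C l * (P * Q) - C c * (derivative L * Q) := by
      rw [hW]; ring
    rw [e7, J_sub, J_add, J_smul, J_smul, e1, e2, e3, e4, e5, e6]
    linear_combination (-(Q.eval 1) + (-1) ^ (n + 1) * Q.eval (-1)) * hcL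
  have hW0 : W = 0 := eq_zero_of_J_sq (key W hWn)
  rw [hW] at hW0
  exact sub_eq_zero.1 hW0

/-- The resolvent polynomial. -/
noncomputable def H (N : ℕ) (l : ℝ) : ℝ[X] :=
  ∑ j ∈ Finset.range (N + 1), C ((-1) ^ j * (l⁻¹) ^ j) * derivative^[2 * j] (Leg N)

lemma H_ode {N : ℕ} {l : ℝ} (hl : l ≠ 0) :
    derivative (derivative (H N l)) + C l * H N l = C l * Leg N := by
  have h1 : derivative (derivative (H N l)) + C l * H N l =
      ∑ j ∈ Finset.range (N + 1),
        (C ((-1) ^ j * (l⁻¹) ^ j * l) * derivative^[2 * j] (Leg N)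
          - C ((-1) ^ (j + 1) * (l⁻¹) ^ (j + 1) * l) * derivative^[2 * (j + 1)] (Leg N)) := by
    unfold H
    rw [derivative_sum, derivative_sum, Finset.mul_sum, ← Finset.sum_add_distrib]
    apply Finset.sum_congr rfl
    intro j _
    rw [derivative_C_mul, derivative_C_mul]
    have e1 : derivative (derivative (derivative^[2 * j] (Leg N))) =
        derivative^[2 * (j + 1)] (Leg N) := by
      rw [show 2 * (j + 1) = 2 * j + 1 + 1 by ring, Function.iterate_succ_apply',
        Function.iterate_succ_apply']
    rw [e1]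
    have e2 : (-1 : ℝ) ^ (j + 1) * (l⁻¹) ^ (j + 1) * l = -((-1) ^ j * (l⁻¹) ^ j) := by
      rw [pow_succ, pow_succ]; field_simp
    rw [e2]
    rw [C_neg, C_mul (b := l)]
    ring
  rw [h1, Finset.sum_range_sub']
  have h2 : derivative^[2 * (N + 1)] (Leg N) = 0 := by
    apply iterate_derivative_eq_zero
    have := natDegree_Leg_le N
    omega
  rw [h2]
  simp

/-- The final scalar equation. -/
lemma EL.H_eval {n : ℕ} {l : ℝ} {P : ℝ[X]} (h : EL n l P) (hp : HasParity n P) (hP : P ≠ 0)
    (hl : l ≠ 0) : (H (n + 1) l).eval 1 = 0 := by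
  have h1 := h.ode hp
  have h2 := H_ode (N := n + 1) hl
  set L := Leg (n + 1) with hL
  have hL1 : 0 < L.eval 1 := Leg_eval_one_pos _
  set κ := (derivative P).eval 1 with hκ
  set K := H (n + 1) l with hK
  have h3 : derivative (derivative (derivative K)) + C l * derivative K = C l * derivative L := by
    have := congrArg derivative h2
    simpa using this
  have h4 : C l * P - C (κ / L.eval 1) * derivative K = 0 := by
    apply eq_zero_of_ode hl
    simp only [derivative_sub, derivative_C_mul]
    linear_combination (C l) * h1 - C (κ / L.eval 1) * h3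
  have h5 := congrArg (fun Q => (derivative Q).eval 1) h4
  simp only [derivative_sub, derivative_C_mul, eval_sub, eval_mul, eval_C, derivative_zero,
    eval_zero] at h5
  rw [← hκ] at h5
  have h6 := congrArg (eval 1) h2
  simp only [eval_add, eval_mul, eval_C] at h6
  have hκ0 : κ ≠ 0 := by
    intro h0
    apply hP
    rw [h0] at h1
    simp only [zero_div, map_zero, zero_mul] at h1
    exact eq_zero_of_ode hl h1
  have h7 : κ * (l * K.eval 1) = 0 := by
    have e : κ / L.eval 1 * L.eval 1 = κ := by field_simp
    have h8 : (derivative (derivative K)).eval 1 = l * L.eval 1 - l * K.eval 1 := by linarith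
    rw [h8] at h5
    field_simp at h5
    linear_combination h5
  rcases mul_eq_zero.1 h7 with h8 | h8
  · exact absurd h8 hκ0
  · rcases mul_eq_zero.1 h8 with h9 | h9
    · exact absurd h9 hl
    · exact h9

end Pool.Agent.Lib.MP_ff3579_an
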