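import Mathlib
import Pool.Agent.Lib.MP_ff3579_an.EulerLagrange

/-! Reduction of the L2 Markov extremal problem to polynomials of the parity of `n`. -/

set_option autoImplicit false

open Polynomial

namespace Pool.Agent.Lib.MP_ff3579_an

/-- Extremality in the quadratic form. -/
def Extremal (n : ℕ) (l : ℝ) : Prop :=
  ∀ Q : ℝ[X], Q.natDegree ≤ n → J (derivative Q * derivative Q) ≤ l * J (Q * Q)

lemma EL_of_extremal {n : ℕ} {l : ℝ} {P : ℝ[X]} (hP : P.natDegree ≤ n)
    (he : J (derivative P * derivative P) = l * J (P * P)) (hx : Extremal n l) : EL n l P := by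
  refine ⟨hP, fun Q hQ => ?_⟩
  -- the quadratic in `s`
  have key : ∀ s : ℝ, 0 ≤ 2 * s * (l * J (P * Q) - J (derivative P * derivative Q))
      + s ^ 2 * (l * J (Q * Q) - J (derivative Q * derivative Q)) := by
    intro s
    have h1 := hx (P + C s * Q) ((natDegree_add_le _ _).trans
      (max_le hP ((natDegree_C_mul_le _ _).trans hQ)))
    have e1 : derivative (P + C s * Q) * derivative (P + C s * Q) =
        derivative P * derivative P + C (2 * s) * (derivative P * derivative Q)
          + C (s ^ 2) * (derivative Q * derivative Q) := by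
      simp only [derivative_add, derivative_C_mul, C_mul, C_pow]
      have : (C 2 : ℝ[X]) = 2 := rfl
      rw [this]; ring
    have e2 : (P + C s * Q) * (P + C s * Q) = P * P + C (2 * s) * (P * Q)
          + C (s ^ 2) * (Q * Q) := by
      simp only [C_mul, C_pow]
      have : (C 2 : ℝ[X]) = 2 := rfl
      rw [this]; ring
    rw [e1, e2, J_add, J_add, J_add, J_add, J_smul, J_smul, J_smul, J_smul, he] at h1
    linarith
  set a := l * J (P * Q) - J (derivative P * derivative Q) with ha
  set b := l * J (Q * Q) - J (derivative Q * derivative Q) with hb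
  have hb0 : 0 ≤ b := by rw [hb]; linarith [hx Q hQ]
  have ha0 : a = 0 := by
    by_contra hne
    have h1 := key (-a / (b + 1))
    have hb1 : 0 < b + 1 := by linarith
    have h2 : 2 * (-a / (b + 1)) * a + (-a / (b + 1)) ^ 2 * b =
        - (a ^ 2 * (b + 2) / (b + 1) ^ 2) := by
      field_simp; ring
    rw [h2] at h1
    have h3 : 0 < a ^ 2 * (b + 2) / (b + 1) ^ 2 := by positivity
    linarith
  rw [ha] at ha0
  linarith

lemma EL.comp_neg {n : ℕ} {l : ℝ} {P : ℝ[X]} (h : EL n l P) : EL n l (P.comp (-X)) := by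
  have hd : ∀ Q : ℝ[X], (Q.comp (-X)).natDegree = Q.natDegree := by
    intro Q
    rw [natDegree_comp]; simp
  have hcc : ∀ Q : ℝ[X], (Q.comp (-X)).comp (-X) = Q := by
    intro Q; rw [comp_assoc]; simp
  have hdd : ∀ Q : ℝ[X], derivative (Q.comp (-X)) = - (derivative Q).comp (-X) := by
    intro Q; rw [derivative_comp]; simp
  refine ⟨by rw [hd]; exact h.1, fun Q hQ => ?_⟩
  have h1 := h.2 (Q.comp (-X)) (by rw [hd]; exact hQ)
  rw [← J_comp_neg (derivative P * _), ← J_comp_neg (P * _), mul_comp, mul_comp, hcc] at h1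
  rw [hdd, neg_comp, hcc] at h1
  rw [hdd, ← h1]
  congr 1; ring

lemma EL.add {n : ℕ} {l : ℝ} {P P' : ℝ[X]} (h : EL n l P) (h' : EL n l P') :
    EL n l (P + P') := by
  refine ⟨(natDegree_add_le _ _).trans (max_le h.1 h'.1), fun Q hQ => ?_⟩
  rw [derivative_add, add_mul, add_mul, J_add, J_add, h.2 Q hQ, h'.2 Q hQ]; ring

lemma EL.smul {n : ℕ} {l : ℝ} {P : ℝ[X]} (c : ℝ) (h : EL n l P) : EL n l (C c * P) := by
  refine ⟨(natDegree_C_mul_le _ _).trans h.1, fun Q hQ => ?_⟩
  rw [derivative_C_mul, mul_assoc, mul_assoc, J_smul, J_smul, h.2 Q hQ]; ring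

lemma EL.mono {n k : ℕ} {l : ℝ} {P : ℝ[X]} (h : EL n l P) (hk : k ≤ n) (hP : P.natDegree ≤ k) :
    EL k l P :=
  ⟨hP, fun Q hQ => h.2 Q (hQ.trans hk)⟩

lemma HasParity.natDegree_le {k : ℕ} {P : ℝ[X]} (h : HasParity k P)
    (hP : P.natDegree ≤ k + 1) : P.natDegree ≤ k := by
  rw [Polynomial.natDegree_le_iff_coeff_eq_zero]
  intro j hj
  rcases Nat.lt_or_ge (k + 1) j with h1 | h1
  · exact coeff_eq_zero_of_natDegree_lt (by omega)
  · have hj' : j = k + 1 := by omega
    subst hj'
    have h2 := congrArg (fun Q => Q.coeff (k + 1)) h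
    rw [neg_one_pow_eq_C, coeff_C_mul] at h2
    have h3 : (P.comp (-X)).coeff (k + 1) = (-1) ^ (k + 1) * P.coeff (k + 1) := by
      have e : P.comp (-X) = P.comp (C (-1) * X) := by simp
      rw [e, comp_C_mul_X_coeff]; ring
    rw [h3, pow_succ] at h2
    have h4 : ((-1 : ℝ) ^ k) * ((-1 : ℝ) ^ k) = 1 := by
      rw [← mul_pow]; norm_num
    have h5 : (-1 : ℝ) ^ k * (2 * P.coeff (k + 1)) = 0 := by linarith
    rcases mul_eq_zero.1 h5 with h6 | h6
    · exact absurd h6 (pow_ne_zero _ (by norm_num))
    · linarith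

/-- If an extremal polynomial had the parity of `k`, it could be improved in degree `k+1`. -/
lemma improve {k : ℕ} {l : ℝ} {P : ℝ[X]} (hl : 0 ≤ l) (h : EL k l P) (hp : HasParity k P)
    (hP : P ≠ 0) :
    l * J ((X * P) * (X * P)) < J (derivative (X * P) * derivative (X * P)) := by
  have hode := h.ode hp
  set L := Leg (k + 1) with hL
  have hL1 : 0 < L.eval 1 := Leg_eval_one_pos _
  set κ := (derivative P).eval 1 with hκ
  set c := κ / L.eval 1 with hc
  have hcL : c * L.eval 1 = κ := by rw [hc]; field_simp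
  have hpos := J_sq_pos hP
  -- values at `-1`
  have pm1 : P.eval (-1) = (-1) ^ k * P.eval 1 := by simpa using hp.eval_neg 1
  have pm2 : (derivative P).eval (-1) = (-1) ^ (k + 1) * κ := by
    simpa using hp.derivative.eval_neg 1
  have pm3 : L.eval (-1) = (-1) ^ (k + 1) * L.eval 1 := Leg_eval_neg_one _
  have hs : ((-1 : ℝ) ^ k) * ((-1 : ℝ) ^ k) = 1 := by
    rw [← mul_pow]; norm_num
  -- first integral identity: `2 J(X P P')`
  have i1 : J (derivative P * (X * P)) = P.eval 1 ^ 2 * 1 - (J (P * P)) / 2 := by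
    have h1 := J_parts P (X * P)
    simp only [eval_mul, eval_X, derivative_mul, derivative_X, one_mul, mul_add] at h1
    rw [J_add, pm1] at h1
    have e : J (P * (X * derivative P)) = J (derivative P * (X * P)) := by
      congr 1; ring
    rw [e] at h1
    have e2 : ((-1 : ℝ) ^ k * P.eval 1) * (-1 * ((-1 : ℝ) ^ k * P.eval 1)) = - P.eval 1 ^ 2 := by
      linear_combination (- P.eval 1 ^ 2) * hs
    rw [e2] at h1
    linarith
  -- second: `J(X² P'²)`
  have i2 : J (derivative P * (X ^ 2 * derivative P)) = 2 * P.eval 1 * κ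
      - 2 * J (derivative P * (X * P)) - J (X ^ 2 * P * derivative (derivative P)) := by
    have h1 := J_parts P (X ^ 2 * derivative P)
    simp only [eval_mul, eval_pow, eval_X, derivative_mul, derivative_X_pow] at h1
    rw [pm1, pm2] at h1
    have e1 : P * (C ((2 : ℕ) : ℝ) * X ^ (2 - 1) * derivative P + X ^ 2 * derivative (derivative P))
        = C 2 * (derivative P * (X * P)) + X ^ 2 * P * derivative (derivative P) := by
      have : (2 : ℕ) - 1 = 1 := rfl
      rw [this, pow_one]
      push_cast
      ring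
    rw [e1, J_add, J_smul] at h1
    rw [h1, pow_succ]
    linear_combination (P.eval 1 * κ) * hs
  -- third: `J(X² P L')`
  have i3 : J (derivative L * (X ^ 2 * P)) = 2 * P.eval 1 * L.eval 1
      - J (L * (C 2 * X * P + X ^ 2 * derivative P)) := by
    have h1 := J_parts L (X ^ 2 * P)
    simp only [eval_mul, eval_pow, eval_X, derivative_mul, derivative_X_pow] at h1
    rw [pm1, pm3] at h1
    have e1 : (C ((2 : ℕ) : ℝ) * X ^ (2 - 1) * P + X ^ 2 * derivative P)
        = C 2 * X * P + X ^ 2 * derivative P := by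
      have : (2 : ℕ) - 1 = 1 := rfl
      rw [this, pow_one]
      push_cast
      ring
    rw [e1] at h1
    rw [h1, pow_succ]
    linear_combination (P.eval 1 * L.eval 1) * hs
  -- fourth: the orthogonality computation
  set T := C 2 * X * P + X ^ 2 * derivative P with hT
  have i4 : J (L * T) = (k + 2) * P.coeff k * J (L * X ^ (k + 1)) := by
    have hTd : (T - C ((k + 2) * P.coeff k) * X ^ (k + 1)).natDegree < k + 1 := by
      rw [Nat.lt_succ_iff, Polynomial.natDegree_le_iff_coeff_eq_zero]
      intro j hj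
      have hc1 : (C 2 * X * P).coeff j = 2 * P.coeff (j - 1) := by
        obtain ⟨i, rfl⟩ : ∃ i, j = i + 1 := ⟨j - 1, by omega⟩
        rw [mul_assoc, coeff_C_mul, coeff_X_mul]; simp
      have hc2 : (X ^ 2 * derivative P).coeff j = (j - 1 : ℕ) * P.coeff (j - 1) := by
        rcases Nat.lt_or_ge j 2 with h2 | h2
        · have : j = 1 := by omega
          subst this
          rw [coeff_X_pow_mul']; simp
        · obtain ⟨i, rfl⟩ : ∃ i, j = i + 2 := ⟨j - 2, by omega⟩
          rw [coeff_X_pow_mul, coeff_derivative]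
          have : i + 2 - 1 = i + 1 := by omega
          rw [this]; push_cast; ring
      rw [hT, coeff_sub, coeff_add, hc1, hc2, coeff_C_mul, coeff_X_pow]
      rcases Nat.lt_or_ge (k + 1) j with h3 | h3
      · rw [coeff_eq_zero_of_natDegree_lt (lt_of_le_of_lt h.1 (show k < j - 1 by omega)),
          if_neg (by omega)]
        ring
      · have : j = k + 1 := by omega
        subst this
        have e : k + 1 - 1 = k := by omega
        rw [e]; simp; ring
    have h1 := J_Leg_mul_of_lt (N := k + 1) hTd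
    rw [← hL, mul_sub, J_sub] at h1
    have e : L * (C ((k + 2) * P.coeff k) * X ^ (k + 1)) =
      C ((k + 2) * P.coeff k) * (L * X ^ (k + 1)) := by ring
    rw [e, J_smul] at h1
    linarith
  -- the sign of `c * p_k`
  have i5 : 0 ≤ c * P.coeff k := by
    have h1 := congrArg (fun Q => Q.coeff k) hode
    simp only [coeff_add, coeff_C_mul] at h1
    have h2 : (derivative (derivative P)).coeff k = 0 := by
      rw [coeff_derivative, coeff_derivative,
        coeff_eq_zero_of_natDegree_lt (lt_of_le_of_lt h.1 (show k < k + 1 + 1 by omega))]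
      ring
    rw [h2, zero_add, coeff_derivative] at h1
    have h3 : 0 < L.coeff (k + 1) := coeff_Leg_pos _
    have h4 : c * (L.coeff (k + 1) * (k + 1)) * P.coeff k = l * P.coeff k ^ 2 := by
      rw [← h1]; ring
    have h5 : 0 ≤ (c * P.coeff k) * (L.coeff (k + 1) * (k + 1)) := by
      have : (c * P.coeff k) * (L.coeff (k + 1) * (k + 1)) = l * P.coeff k ^ 2 := by
        rw [← h4]; ring
      rw [this]; positivity
    exact nonneg_of_mul_nonneg_left h5 (by positivity)
  -- assembling
  have hR : J (derivative (X * P) * derivative (X * P)) = J (P * P)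
      + 2 * J (derivative P * (X * P)) + J (derivative P * (X ^ 2 * derivative P)) := by
    have e : derivative (X * P) * derivative (X * P) = P * P + C 2 * (derivative P * (X * P))
        + derivative P * (X ^ 2 * derivative P) := by
      simp only [derivative_mul, derivative_X, one_mul]
      have : (C 2 : ℝ[X]) = 2 := rfl
      rw [this]; ring
    rw [e, J_add, J_add, J_smul]
  have hS : J (X ^ 2 * P * derivative (derivative P)) =
      - (l * J ((X * P) * (X * P))) + c * J (derivative L * (X ^ 2 * P)) := by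
    have e1 : derivative (derivative P) = C c * derivative L - C l * P := by
      linear_combination hode
    have e2 : X ^ 2 * P * derivative (derivative P) = C c * (derivative L * (X ^ 2 * P))
        - C l * ((X * P) * (X * P)) := by
      rw [e1]; ring
    rw [e2, J_sub, J_smul, J_smul]; ring
  have hJ : 0 < J (L * X ^ (k + 1)) := J_Leg_mul_X_pow _
  have hfin : J (derivative (X * P) * derivative (X * P)) - l * J ((X * P) * (X * P)) =
      J (P * P) + (c * P.coeff k) * ((k + 2) * J (L * X ^ (k + 1))) := by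
    rw [hR, i2, hS, i3, i4, ← hcL]
    ring
  have : 0 ≤ (c * P.coeff k) * ((k + 2) * J (L * X ^ (k + 1))) := by positivity
  linarith

/-- Conclusion: an extremal polynomial for degree `n` can be taken with the parity of `n`. -/
lemma exists_parity {n : ℕ} (hn : 1 ≤ n) {l : ℝ} (hl : 0 ≤ l) {P : ℝ[X]} (hP : P ≠ 0)
    (h : EL n l P) (hx : Extremal n l) : ∃ A : ℝ[X], A ≠ 0 ∧ EL n l A ∧ HasParity n A := by
  set A := P + C ((-1) ^ n) * P.comp (-X) with hA
  have hAE : EL n l A := h.add (h.comp_neg.smul _)
  have hs : ((-1 : ℝ) ^ n) * ((-1 : ℝ) ^ n) = 1 := by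
    rw [← mul_pow]; norm_num
  have hs' : (C ((-1 : ℝ) ^ n) : ℝ[X]) * C ((-1 : ℝ) ^ n) = 1 := by
    rw [← C_mul, hs, C_1]
  have hcc : (P.comp (-X)).comp (-X) = P := by
    rw [comp_assoc]; simp
  have hAp : HasParity n A := by
    unfold HasParity
    rw [neg_one_pow_eq_C, hA, add_comp, mul_comp, C_comp, hcc]
    linear_combination (-(P.comp (-X))) * hs'
  by_cases hA0 : A = 0
  · exfalso
    obtain ⟨k, rfl⟩ : ∃ k, n = k + 1 := ⟨n - 1, by omega⟩
    have hPk : HasParity k P := by
      unfold HasParity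
      rw [neg_one_pow_eq_C]
      have h1 : P + C ((-1) ^ (k + 1)) * P.comp (-X) = 0 := by rw [← hA]; exact hA0
      have h2 : (C ((-1 : ℝ) ^ k) : ℝ[X]) * C ((-1 : ℝ) ^ k) = 1 := by
        rw [← C_mul, ← mul_pow]; norm_num
      rw [pow_succ, C_mul] at h1
      have h3 : (C (-1 : ℝ) : ℝ[X]) = -1 := by simp
      rw [h3] at h1
      linear_combination (- C ((-1 : ℝ) ^ k)) * h1 + (-(P.comp (-X))) * h2
    have hPd : P.natDegree ≤ k := hPk.natDegree_le h.1
    have hPE : EL k l P := h.mono (Nat.le_succ _) hPd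
    have h1 := improve hl hPE hPk hP
    have h2 := hx (X * P) (by
      refine natDegree_mul_le.trans ?_
      rw [natDegree_X]; omega)
    linarith
  · exact ⟨A, hA0, hAE, hAp⟩

end Pool.Agent.Lib.MP_ff3579_an
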