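import Mathlib
import Pool.Agent.Lib.MP_ff3579_an.Parity

/-! Existence of the extremal polynomial and the algebraic equation of the sharp constant. -/

set_option autoImplicit false

open Polynomial

namespace Pool.Agent.Lib.MP_ff3579_an

/-- the `L_p` (quasi-)norm on `[-1,1]` -/
noncomputable def lpNorm (p : ℝ) (P : ℝ[X]) : ℝ :=
  (∫ x in (-1 : ℝ)..1, |P.eval x| ^ p) ^ (1 / p)

/-- the sharp constant `C(n,p)` -/
noncomputable def markovConst (n : ℕ) (p : ℝ) : ℝ :=
  sSup {c : ℝ | ∃ P : ℝ[X], P ≠ 0 ∧ P.natDegree ≤ n ∧ c = lpNorm p (derivative P) / lpNorm p P}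

lemma lpNorm_two (P : ℝ[X]) : lpNorm 2 P = √(J (P * P)) := by
  unfold lpNorm J
  rw [Real.sqrt_eq_rpow]
  congr 1
  apply intervalIntegral.integral_congr
  intro x _
  simp only [eval_mul]
  rw [Real.rpow_two, sq_abs, sq]

lemma J_sum {ι : Type*} (s : Finset ι) (f : ι → ℝ[X]) :
    J (∑ i ∈ s, f i) = ∑ i ∈ s, J (f i) := by
  classical
  induction s using Finset.induction_on with
  | empty => simp [J_zero]
  | insert a s ha ih => rw [Finset.sum_insert ha, Finset.sum_insert ha, J_add, ih]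

/-- polynomial with given coefficients -/
noncomputable def ofCoeffs (n : ℕ) (v : Fin (n + 1) → ℝ) : ℝ[X] :=
  ∑ i : Fin (n + 1), C (v i) * X ^ (i : ℕ)

lemma ofCoeffs_coeff {n : ℕ} (v : Fin (n + 1) → ℝ) (i : Fin (n + 1)) :
    (ofCoeffs n v).coeff i = v i := by
  unfold ofCoeffs
  rw [finsetSum_coeff]
  simp only [coeff_C_mul, coeff_X_pow]
  rw [Finset.sum_eq_single i]
  · simp
  · intro j _ hj
    rw [if_neg (fun h => hj (Fin.ext h.symm))]; simp
  · intro h; exact absurd (Finset.mem_univ _) h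

lemma natDegree_ofCoeffs {n : ℕ} (v : Fin (n + 1) → ℝ) : (ofCoeffs n v).natDegree ≤ n := by
  unfold ofCoeffs
  apply natDegree_sum_le_of_forall_le
  intro i _
  refine (natDegree_C_mul_X_pow_le _ _).trans ?_
  omega

lemma ofCoeffs_of_coeff {n : ℕ} {Q : ℝ[X]} (hQ : Q.natDegree ≤ n) :
    ofCoeffs n (fun i => Q.coeff i) = Q := by
  ext j
  rcases Nat.lt_or_ge j (n + 1) with h | h
  · exact ofCoeffs_coeff (fun i => Q.coeff i) ⟨j, h⟩
  · rw [coeff_eq_zero_of_natDegree_lt (lt_of_le_of_lt (natDegree_ofCoeffs _) (by omega)),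
      coeff_eq_zero_of_natDegree_lt (by omega)]

lemma ofCoeffs_ne_zero {n : ℕ} {v : Fin (n + 1) → ℝ} (hv : v ≠ 0) : ofCoeffs n v ≠ 0 := by
  intro h
  apply hv
  funext i
  rw [← ofCoeffs_coeff v i, h]; simp

lemma ofCoeffs_smul {n : ℕ} (c : ℝ) (v : Fin (n + 1) → ℝ) :
    ofCoeffs n (c • v) = C c * ofCoeffs n v := by
  unfold ofCoeffs
  rw [Finset.mul_sum]
  apply Finset.sum_congr rfl
  intro i _
  simp only [Pi.smul_apply, smul_eq_mul, C_mul]; ring

lemma continuous_J_ofCoeffs (n : ℕ) :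
    Continuous fun v : Fin (n + 1) → ℝ => J (ofCoeffs n v * ofCoeffs n v) := by
  have h : (fun v : Fin (n + 1) → ℝ => J (ofCoeffs n v * ofCoeffs n v)) =
      fun v => ∑ i : Fin (n + 1), ∑ j : Fin (n + 1), (v i * v j) *
        J (X ^ (i : ℕ) * X ^ (j : ℕ)) := by
    funext v
    unfold ofCoeffs
    rw [Finset.sum_mul_sum, J_sum]
    apply Finset.sum_congr rfl
    intro i _
    rw [J_sum]
    apply Finset.sum_congr rfl
    intro j _
    rw [← J_smul, C_mul]
    congr 1; ring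
  rw [h]
  fun_prop

lemma continuous_J_derivative_ofCoeffs (n : ℕ) :
    Continuous fun v : Fin (n + 1) → ℝ =>
      J (derivative (ofCoeffs n v) * derivative (ofCoeffs n v)) := by
  have h : (fun v : Fin (n + 1) → ℝ =>
      J (derivative (ofCoeffs n v) * derivative (ofCoeffs n v))) =
      fun v => ∑ i : Fin (n + 1), ∑ j : Fin (n + 1), (v i * v j) *
        J (derivative (X ^ (i : ℕ)) * derivative (X ^ (j : ℕ))) := by
    funext v
    unfold ofCoeffs
    rw [derivative_sum, Finset.sum_mul_sum, J_sum]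
    apply Finset.sum_congr rfl
    intro i _
    rw [J_sum]
    apply Finset.sum_congr rfl
    intro j _
    rw [← J_smul, C_mul, derivative_C_mul, derivative_C_mul]
    congr 1; ring
  rw [h]
  fun_prop

lemma exists_extremal (n : ℕ) : ∃ (l : ℝ) (P : ℝ[X]), P ≠ 0 ∧ P.natDegree ≤ n ∧
    J (derivative P * derivative P) = l * J (P * P) ∧ Extremal n l ∧ 0 ≤ l := by
  have hS : IsCompact (Metric.sphere (0 : Fin (n + 1) → ℝ) 1) := isCompact_sphere _ _
  have hne : (Metric.sphere (0 : Fin (n + 1) → ℝ) 1).Nonempty :=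
    NormedSpace.sphere_nonempty.2 zero_le_one
  have hne0 : ∀ v ∈ Metric.sphere (0 : Fin (n + 1) → ℝ) 1, v ≠ 0 := by
    intro v hv h
    rw [h] at hv
    simp at hv
  have hcont : ContinuousOn (fun v : Fin (n + 1) → ℝ =>
      J (derivative (ofCoeffs n v) * derivative (ofCoeffs n v)) /
        J (ofCoeffs n v * ofCoeffs n v)) (Metric.sphere (0 : Fin (n + 1) → ℝ) 1) := by
    apply ContinuousOn.div (continuous_J_derivative_ofCoeffs n).continuousOn
      (continuous_J_ofCoeffs n).continuousOn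
    intro v hv
    exact (J_sq_pos (ofCoeffs_ne_zero (hne0 v hv))).ne'
  obtain ⟨v, hv, hmax⟩ := hS.exists_isMaxOn hne hcont
  have hPne := ofCoeffs_ne_zero (hne0 v hv)
  have hpos := J_sq_pos hPne
  refine ⟨J (derivative (ofCoeffs n v) * derivative (ofCoeffs n v)) /
        J (ofCoeffs n v * ofCoeffs n v), ofCoeffs n v, hPne, natDegree_ofCoeffs _, ?_, ?_, ?_⟩
  · field_simp
  · intro Q hQ
    by_cases hQ0 : Q = 0
    · subst hQ0; simp [J_zero]
    set w : Fin (n + 1) → ℝ := fun i => Q.coeff i with hw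
    have hwQ : ofCoeffs n w = Q := ofCoeffs_of_coeff hQ
    have hw0 : w ≠ 0 := by
      intro h
      apply hQ0
      rw [← hwQ, h]
      unfold ofCoeffs; simp
    have hwn : 0 < ‖w‖ := norm_pos_iff.2 hw0
    have hmem : (‖w‖⁻¹ • w) ∈ Metric.sphere (0 : Fin (n + 1) → ℝ) 1 := by
      rw [mem_sphere_zero_iff_norm, norm_smul, norm_inv, norm_norm]
      field_simp
    have h1 := hmax hmem
    simp only [Set.mem_ofPred_eq] at h1
    rw [ofCoeffs_smul, hwQ, derivative_C_mul] at h1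
    have e1 : C ‖w‖⁻¹ * derivative Q * (C ‖w‖⁻¹ * derivative Q) =
        C (‖w‖⁻¹ ^ 2) * (derivative Q * derivative Q) := by
      rw [C_pow]; ring
    have e2 : C ‖w‖⁻¹ * Q * (C ‖w‖⁻¹ * Q) = C (‖w‖⁻¹ ^ 2) * (Q * Q) := by
      rw [C_pow]; ring
    have hQpos := J_sq_pos hQ0
    rw [e1, e2, J_smul, J_smul, mul_div_mul_left _ _ (by positivity)] at h1
    rwa [div_le_iff₀ hQpos] at h1
  · exact div_nonneg (J_sq_nonneg _) hpos.le

lemma markovConst_eq_sqrt {n : ℕ} {l : ℝ} {P : ℝ[X]} (hP : P ≠ 0) (hPn : P.natDegree ≤ n)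
    (he : J (derivative P * derivative P) = l * J (P * P)) (hx : Extremal n l) :
    markovConst n 2 = √l := by
  unfold markovConst
  apply IsGreatest.csSup_eq
  constructor
  · refine ⟨P, hP, hPn, ?_⟩
    rw [lpNorm_two, lpNorm_two, he, ← Real.sqrt_div' _ (J_sq_nonneg P)]
    have := J_sq_pos hP
    congr 1; field_simp
  · rintro c ⟨Q, hQ, hQn, rfl⟩
    rw [lpNorm_two, lpNorm_two, ← Real.sqrt_div' _ (J_sq_nonneg Q)]
    apply Real.sqrt_le_sqrt
    rw [div_le_iff₀ (J_sq_pos hQ)]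
    exact hx Q hQn

/-- coefficients -/
def cf (N j : ℕ) : ℕ := (N + 2 * j).choose N * N.descFactorial (2 * j)

/-- The integer polynomial whose largest root is four times the square of the constant. -/
noncomputable def Zp (N : ℕ) : ℤ[X] :=
  ∑ j ∈ Finset.range (N / 2 + 1), C ((-1) ^ j * (cf N j : ℤ)) * X ^ (N / 2 - j)

lemma H_eval_one (N : ℕ) {l : ℝ} (hl : l ≠ 0) :
    (H N l).eval 1 * (4 * l) ^ (N / 2) = (N.factorial * 2 ^ N) *
      (aeval (4 * l) (Zp N)) := by
  unfold H Zp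
  rw [eval_finsetSum, map_sum, Finset.sum_mul, Finset.mul_sum]
  have hsub : Finset.range (N / 2 + 1) ⊆ Finset.range (N + 1) := by
    intro j hj
    rw [Finset.mem_range] at *
    omega
  rw [← Finset.sum_subset hsub]
  · apply Finset.sum_congr rfl
    intro j hj
    rw [Finset.mem_range] at hj
    rw [eval_mul, eval_C, iterate_Leg_eval_one N (2 * j) (by omega)]
    unfold cf
    simp only [map_mul, map_pow, aeval_X, map_neg, map_one, eq_intCast, map_intCast]
    have e1 : (4 * l) ^ (N / 2) = (4 * l) ^ (N / 2 - j) * (4 ^ j * l ^ j) := by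
      rw [← mul_pow, ← pow_add]; congr 1; omega
    have e2 : (2 : ℝ) ^ N = 2 ^ (N - 2 * j) * 4 ^ j := by
      rw [show (4 : ℝ) = 2 ^ 2 by norm_num, ← pow_mul, ← pow_add]; congr 1; omega
    rw [e1, e2]
    push_cast
    have e3 : (l⁻¹) ^ j * l ^ j = 1 := by
      rw [← mul_pow, inv_mul_cancel₀ hl, one_pow]
    generalize (l⁻¹) ^ j = a at e3
    generalize l ^ j = b at e3
    linear_combination ((-1) ^ j * ((((N + 2 * j).choose N : ℕ) : ℝ) * (N.factorial : ℝ) *
      ((N.descFactorial (2 * j) : ℕ) : ℝ)) * 2 ^ (N - 2 * j) * (4 * l) ^ (N / 2 - j) * 4 ^ j) * e3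
  · intro j hj hj'
    rw [Finset.mem_range] at hj hj'
    have : derivative^[2 * j] (Leg N) = 0 := by
      apply iterate_derivative_eq_zero
      have := natDegree_Leg_le N
      omega
    rw [this]; simp

/-- Main analytic statement: four times the square of the sharp constant is a root. -/
theorem aeval_markovConst {n : ℕ} (hn : 1 ≤ n) :
    aeval (4 * markovConst n 2 ^ 2) (Zp (n + 1)) = 0 ∧ 0 < markovConst n 2 := by
  obtain ⟨l, P, hP, hPn, he, hx, hl⟩ := exists_extremal n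
  have hM := markovConst_eq_sqrt hP hPn he hx
  have hEL := EL_of_extremal hPn he hx
  obtain ⟨A, hA, hAE, hAp⟩ := exists_parity hn hl hP hEL hx
  have hl0 : 0 < l := by
    have h1 := hx X (by rw [natDegree_X]; exact hn)
    rw [derivative_X] at h1
    have h2 : 0 < J (1 * 1) := J_sq_pos one_ne_zero
    have h3 : 0 < J (X * X) := J_sq_pos X_ne_zero
    by_contra hcon
    have : l = 0 := le_antisymm (not_lt.1 hcon) hl
    rw [this] at h1
    linarith
  have h1 := hAE.H_eval hAp hA hl0.ne'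
  have h2 := H_eval_one (n + 1) hl0.ne'
  rw [h1, zero_mul] at h2
  have h3 : markovConst n 2 ^ 2 = l := by rw [hM, Real.sq_sqrt hl]
  refine ⟨?_, by rw [hM]; exact Real.sqrt_pos.2 hl0⟩
  rw [h3]
  have h4 : ((n + 1).factorial : ℝ) * 2 ^ (n + 1) ≠ 0 := by positivity
  exact (mul_eq_zero.1 h2.symm).resolve_left h4

end Pool.Agent.Lib.MP_ff3579_an
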