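import Mathlib

/-! A Newton polygon argument: a slope with denominator `r` forces `r` to divide the degree of a
Galois splitting field. -/

set_option autoImplicit false

open Polynomial WithZero

namespace Pool.Agent.Lib.MP_ff3579_an

section val

variable {L Γ : Type*} [Field L] [LinearOrderedCommGroupWithZero Γ]

lemma unique_max (v : Valuation L Γ) {r : ℕ} (hr : r ≠ 0) {t : Γ} (ht : t ≠ 0)
    (s : Multiset L) (hs : ∀ a ∈ s, v a ^ r ≠ t) :
    ∃ k, v ((s.map fun a => X - C a).prod.coeff k) ≠ 0 ∧ ∀ i, i ≠ k →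
      v ((s.map fun a => X - C a).prod.coeff i) ^ r * t ^ i <
        v ((s.map fun a => X - C a).prod.coeff k) ^ r * t ^ k := by
  induction s using Multiset.induction_on with
  | empty =>
    refine ⟨0, by simp, fun i hi => ?_⟩
    simp [coeff_one, hi, hr]
  | cons a s ih =>
    obtain ⟨k, hk0, hk⟩ := ih (fun b hb => hs b (Multiset.mem_cons_of_mem hb))
    have ha := hs a (Multiset.mem_cons_self a s)
    rw [Multiset.map_cons, Multiset.prod_cons]
    set g := (s.map fun a => X - C a).prod with hg
    have htpos : 0 < t := zero_lt_iff.2 ht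
    have hMpos : 0 < v (g.coeff k) ^ r * t ^ k :=
      mul_pos (pow_pos (zero_lt_iff.2 hk0) _) (pow_pos htpos _)
    set M := v (g.coeff k) ^ r * t ^ k with hM
    have hle : ∀ i, v (g.coeff i) ^ r * t ^ i ≤ M := by
      intro i
      rcases eq_or_ne i k with h | h
      · rw [h]
      · exact (hk i h).le
    -- the shifted coefficients
    have hshift : ∀ i, v ((X * g).coeff i) ^ r * t ^ i ≤ t * M ∧
        (i ≠ k + 1 → v ((X * g).coeff i) ^ r * t ^ i < t * M) := by
      intro i
      cases i with
      | zero =>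
        rw [mul_coeff_zero, coeff_X_zero, zero_mul, map_zero, zero_pow hr, zero_mul]
        exact ⟨zero_le, fun _ => mul_pos htpos hMpos⟩
      | succ i =>
        rw [coeff_X_mul, pow_succ, ← mul_assoc, mul_comm _ t]
        refine ⟨mul_le_mul_right (hle i) _, fun hne => ?_⟩
        exact mul_lt_mul_of_pos_left (hk i (by omega)) htpos
    have hcoef : ∀ i, ((X - C a) * g).coeff i = (X * g).coeff i - a * g.coeff i := by
      intro i
      rw [sub_mul, coeff_sub, coeff_C_mul]
    have hpm : ∀ x y : Γ, max x y ^ r = max (x ^ r) (y ^ r) := by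
      intro x y
      rcases le_total x y with h | h
      · rw [max_eq_right h, max_eq_right (pow_le_pow_left' h r)]
      · rw [max_eq_left h, max_eq_left (pow_le_pow_left' h r)]
    have hval : ∀ i, v (((X - C a) * g).coeff i) ^ r * t ^ i ≤
        max (v ((X * g).coeff i) ^ r * t ^ i) (v a ^ r * (v (g.coeff i) ^ r * t ^ i)) := by
      intro i
      rw [hcoef]
      have h1 : v ((X * g).coeff i - a * g.coeff i) ≤
          max (v ((X * g).coeff i)) (v (a * g.coeff i)) := v.map_sub _ _
      have h2 := pow_le_pow_left' h1 r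
      rw [hpm, map_mul, mul_pow] at h2
      have h3 : v ((X * g).coeff i - a * g.coeff i) ^ r * t ^ i ≤
          max (v ((X * g).coeff i) ^ r) (v a ^ r * v (g.coeff i) ^ r) * t ^ i :=
        mul_le_mul_left h2 _
      refine h3.trans (le_of_eq ?_)
      rw [← mul_assoc]
      rcases le_total (v ((X * g).coeff i) ^ r) (v a ^ r * v (g.coeff i) ^ r) with h | h
      · rw [max_eq_right h, max_eq_right (mul_le_mul_left h _)]
      · rw [max_eq_left h, max_eq_left (mul_le_mul_left h _)]
    rcases lt_or_gt_of_ne ha with hlt | hgt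
    · -- `v a ^ r < t`
      refine ⟨k + 1, ?_, ?_⟩
      all_goals
        have hlt' : v (a * g.coeff (k + 1)) < v (g.coeff k) := by
          by_contra hcon
          have h1 := pow_le_pow_left' (not_lt.1 hcon) r
          have h2 : M * t ≤ v (a * g.coeff (k + 1)) ^ r * t ^ (k + 1) := by
            rw [hM, mul_assoc, ← pow_succ]
            exact mul_le_mul_left h1 _
          have h3 : v (a * g.coeff (k + 1)) ^ r * t ^ (k + 1) =
              v a ^ r * (v (g.coeff (k + 1)) ^ r * t ^ (k + 1)) := by
            rw [map_mul, mul_pow, mul_assoc]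
          have h4 : v a ^ r * (v (g.coeff (k + 1)) ^ r * t ^ (k + 1)) ≤ v a ^ r * M :=
            mul_le_mul_right (hle (k + 1)) _
          have h5 : v a ^ r * M < t * M := mul_lt_mul_of_pos_right hlt hMpos
          rw [mul_comm M t, h3] at h2
          exact absurd (h2.trans h4) (not_le.2 h5)
        have heq : v (((X - C a) * g).coeff (k + 1)) = v (g.coeff k) := by
          rw [hcoef, coeff_X_mul]
          exact v.map_sub_eq_of_lt_left hlt'
      · rw [heq]; exact hk0
      · intro i hi
        rw [heq]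
        have e : v (g.coeff k) ^ r * t ^ (k + 1) = t * M := by
          rw [hM, pow_succ]; rw [← mul_assoc, mul_comm]
        rw [e]
        refine lt_of_le_of_lt (hval i) (max_lt ((hshift i).2 hi) ?_)
        exact lt_of_le_of_lt (mul_le_mul_right (hle i) _) (mul_lt_mul_of_pos_right hlt hMpos)
    · -- `t < v a ^ r`
      refine ⟨k, ?_, ?_⟩
      all_goals
        have hapos : 0 < v a ^ r := lt_of_le_of_lt zero_le hgt
        have hlt' : v ((X * g).coeff k) < v (a * g.coeff k) := by
          by_contra hcon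
          have h1 := pow_le_pow_left' (not_lt.1 hcon) r
          have h2 : v (a * g.coeff k) ^ r * t ^ k ≤ v ((X * g).coeff k) ^ r * t ^ k :=
            mul_le_mul_left h1 _
          have h3 : v (a * g.coeff k) ^ r * t ^ k = v a ^ r * M := by
            rw [hM, map_mul, mul_pow, mul_assoc]
          rw [h3] at h2
          exact absurd (h2.trans (hshift k).1) (not_le.2 (mul_lt_mul_of_pos_right hgt hMpos))
        have heq : v (((X - C a) * g).coeff k) = v (a * g.coeff k) := by
          rw [hcoef]
          exact v.map_sub_eq_of_lt_right hlt'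
      · rw [heq, map_mul]
        refine mul_ne_zero ?_ hk0
        intro h0
        rw [h0, zero_pow hr] at hapos
        exact lt_irrefl _ hapos
      · intro i hi
        rw [heq]
        have e : v (a * g.coeff k) ^ r * t ^ k = v a ^ r * M := by
          rw [hM, map_mul, mul_pow, mul_assoc]
        rw [e]
        refine lt_of_le_of_lt (hval i) (max_lt ?_ ?_)
        · exact lt_of_le_of_lt (hshift i).1 (mul_lt_mul_of_pos_right hgt hMpos)
        · exact mul_lt_mul_of_pos_left (hk i hi) hapos

end val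

section numberfield

open NumberField Ideal IsDedekindDomain

/-- an extension of the `r`-adic valuation to a Galois number field -/
lemma exists_valuation (K : Type*) [Field K] [NumberField K] [IsGalois ℚ K] (r : ℕ)
    (hr : r.Prime) : ∃ (v : Valuation K ℤᵐ⁰) (e : ℕ), e ∣ Module.finrank ℚ K ∧
      ∀ x : ℕ, x ≠ 0 → v (x : K) = exp (-((e * padicValNat r x : ℕ) : ℤ)) := by
  have : Fact r.Prime := ⟨hr⟩
  set p : Ideal ℤ := Ideal.span {(r : ℤ)} with hp
  have hp0 : p ≠ ⊥ := by
    rw [hp, Ne, Ideal.span_singleton_eq_bot]; exact_mod_cast hr.ne_zero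
  have hpprime : p.IsPrime := by
    rw [hp, Ideal.span_singleton_prime (by exact_mod_cast hr.ne_zero)]
    exact Nat.prime_iff_prime_int.1 hr
  obtain ⟨⟨P, hP1, hP2⟩⟩ := p.nonempty_primesOver (S := 𝓞 K)
  have hmap : p.map (algebraMap ℤ (𝓞 K)) = Ideal.span {(r : 𝓞 K)} := by
    rw [hp, Ideal.map_span]; simp
  have hr0 : (r : 𝓞 K) ≠ 0 := by exact_mod_cast hr.ne_zero
  have hmap0 : p.map (algebraMap ℤ (𝓞 K)) ≠ ⊥ := by
    rw [hmap, Ne, Ideal.span_singleton_eq_bot]; exact hr0
  have hPbot : P ≠ ⊥ := ne_bot_of_le_ne_bot hmap0 (Ideal.map_le_of_le_comap (P.over_def p).le)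
  let w : HeightOneSpectrum (𝓞 K) := ⟨P, hP1, hPbot⟩
  have hdvd : P.ramificationIdx ℤ ∣ Module.finrank ℚ K := by
    have h1 := ncard_primesOver_mul_ramificationIdxIn_mul_inertiaDegIn p (𝓞 K) Gal(K/ℚ)
    rw [ramificationIdxIn_eq_ramificationIdx p P Gal(K/ℚ),
      IsGaloisGroup.card_eq_finrank Gal(K/ℚ) ℚ K] at h1
    rw [← h1]
    exact Dvd.dvd.mul_left (Dvd.intro _ rfl) _
  refine ⟨w.valuation K, P.ramificationIdx ℤ, hdvd, ?_⟩
  have hvr : w.valuation K (r : K) = exp (-(P.ramificationIdx ℤ : ℤ)) := by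
    have h1 : w.valuation K (algebraMap (𝓞 K) K (r : 𝓞 K)) = w.intValuation (r : 𝓞 K) :=
      w.valuation_of_algebraMap (K := K) (r : 𝓞 K)
    have h2 : algebraMap (𝓞 K) K (r : 𝓞 K) = (r : K) := by simp
    rw [h2] at h1
    rw [h1, w.intValuation_eq_exp_neg_multiplicity hr0,
      IsDedekindDomain.ramificationIdx_eq_multiplicity p P hmap0, hmap]
  have hvy : ∀ y : ℕ, ¬ r ∣ y → w.valuation K (y : K) = 1 := by
    intro y hy
    have h1 : w.valuation K (algebraMap (𝓞 K) K (y : 𝓞 K)) = w.intValuation (y : 𝓞 K) :=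
      w.valuation_of_algebraMap (K := K) (y : 𝓞 K)
    have h2 : algebraMap (𝓞 K) K (y : 𝓞 K) = (y : K) := by simp
    rw [h2] at h1
    rw [h1, w.intValuation_eq_one_iff_mem_primeCompl]
    intro hmem
    apply hy
    have h3 : (y : ℤ) ∈ p := by
      rw [P.over_def p, Ideal.mem_comap]
      simpa using hmem
    rw [hp, Ideal.mem_span_singleton] at h3
    exact_mod_cast h3
  intro x hx
  obtain ⟨y, hy⟩ := pow_padicValNat_dvd (p := r) (n := x)
  have hy' : ¬ r ∣ y := by
    intro h
    have h1 : r ^ (padicValNat r x + 1) ∣ x := by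
      rw [pow_succ]
      conv_rhs => rw [hy]
      exact mul_dvd_mul_left _ h
    exact pow_succ_padicValNat_not_dvd hx h1
  have h1 : (x : K) = (r : K) ^ padicValNat r x * (y : K) := by
    conv_lhs => rw [hy]
    push_cast; rfl
  rw [h1, map_mul, map_pow, hvr, hvy y hy', mul_one, ← exp_nsmul]
  congr 1
  simp; ring

/-- Two points of the `p`-adic Newton polygon on a supporting line of slope `s/r`, where the prime
`r` does not divide `s`, force `r` to divide the degree of a Galois splitting field. -/
theorem prime_dvd_finrank (K : Type*) [Field K] [NumberField K] [IsGalois ℚ K] {f : ℤ[X]}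
    (hf : f.Monic) (hsplit : (f.map (Int.castRingHom K)).Splits) {p r s M : ℕ} (hp : p.Prime)
    (hr : r.Prime) (hs : ¬ r ∣ s)
    (hM : ∀ i, f.coeff i ≠ 0 → M ≤ r * padicValNat p (f.coeff i).natAbs + s * i)
    {i₁ i₂ : ℕ} (hne : i₁ ≠ i₂)
    (h1 : f.coeff i₁ ≠ 0) (h1' : r * padicValNat p (f.coeff i₁).natAbs + s * i₁ = M)
    (h2 : f.coeff i₂ ≠ 0) (h2' : r * padicValNat p (f.coeff i₂).natAbs + s * i₂ = M) :
    r ∣ Module.finrank ℚ K := by
  obtain ⟨v, e, he, hv⟩ := exists_valuation K p hp
  set g := f.map (Int.castRingHom K) with hg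
  have hgm : g.Monic := hf.map _
  have hprod : g = (g.roots.map fun a => X - C a).prod := hsplit.eq_prod_roots_of_monic hgm
  have hvi : ∀ i, f.coeff i ≠ 0 →
      v (g.coeff i) = exp (-((e * padicValNat p (f.coeff i).natAbs : ℕ) : ℤ)) := by
    intro i hi
    rw [← hv _ (Int.natAbs_ne_zero.2 hi), hg, coeff_map]
    rcases Int.natAbs_eq (f.coeff i) with h | h
    · conv_lhs => rw [h]
      simp
    · conv_lhs => rw [h]
      simp
  -- the value of each term
  have hterm : ∀ i, f.coeff i ≠ 0 →
      v (g.coeff i) ^ r * (exp (-((s * e : ℕ) : ℤ))) ^ i =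
        exp (-((e * (r * padicValNat p (f.coeff i).natAbs + s * i) : ℕ) : ℤ)) := by
    intro i hi
    rw [hvi i hi, ← exp_nsmul, ← exp_nsmul, ← exp_add]
    congr 1
    simp only [smul_neg, nsmul_eq_mul]
    push_cast; ring
  have hroot : ∃ a ∈ g.roots, v a ^ r = exp (-((s * e : ℕ) : ℤ)) := by
    by_contra hcon
    push Not at hcon
    obtain ⟨k, hk0, hk⟩ := unique_max v hr.ne_zero (exp_ne_zero) g.roots hcon
    rw [← hprod] at hk hk0
    have hfk : f.coeff k ≠ 0 := by
      intro h0
      apply hk0
      rw [hg, coeff_map, h0]; simp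
    have hmain : ∀ i, i ≠ k → f.coeff i ≠ 0 →
        r * padicValNat p (f.coeff i).natAbs + s * i = M → False := by
      intro i hik hi hiM
      have h3 := hk i hik
      rw [hterm i hi, hterm k hfk, exp_lt_exp, neg_lt_neg_iff, hiM] at h3
      have h4 := hM k hfk
      have h5 : e * (r * padicValNat p (f.coeff k).natAbs + s * k) < e * M := by exact_mod_cast h3
      exact absurd (Nat.mul_le_mul_left e h4) (not_le.2 h5)
    rcases ne_or_eq i₁ k with h | h
    · exact hmain i₁ h h1 h1'
    · exact hmain i₂ (fun h' => hne (h.trans h'.symm)) h2 h2'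
  obtain ⟨a, -, ha⟩ := hroot
  have ha0 : v a ≠ 0 := by
    intro h0
    rw [h0, zero_pow hr.ne_zero] at ha
    exact exp_ne_zero ha.symm
  rw [← exp_log ha0, ← exp_nsmul, exp_inj] at ha
  have h3 : (r : ℤ) ∣ (s * e : ℕ) := by
    refine ⟨-log (v a), ?_⟩
    simp only [nsmul_eq_mul] at ha
    linarith
  have h4 : r ∣ s * e := by exact_mod_cast h3
  exact (((Nat.Prime.dvd_mul hr).1 h4).resolve_left hs).trans he

end numberfield

end Pool.Agent.Lib.MP_ff3579_an
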