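import Mathlib
import Pool.Agent.Lib.MP_ff3579_an.Extremum
import Pool.Agent.Lib.MP_ff3579_an.Newton

/-! Arithmetic of the integer polynomial `Zp N`. -/

set_option autoImplicit false

open Polynomial

namespace Pool.Agent.Lib.MP_ff3579_an

lemma cf_mul {N j : ℕ} (h : 2 * j ≤ N) :
    cf N j * ((2 * j).factorial * (N - 2 * j).factorial) = (N + 2 * j).factorial := by
  unfold cf
  have h1 := Nat.add_choose_mul_factorial_mul_factorial (2 * j) N
  rw [add_comm (2 * j) N] at h1
  have h2 := Nat.factorial_mul_descFactorial h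
  rw [← h1, ← h2, Nat.choose_symm_add]
  ring

lemma cf_zero (N : ℕ) : cf N 0 = 1 := by
  unfold cf; simp

lemma cf_ne_zero {N j : ℕ} (h : 2 * j ≤ N) : cf N j ≠ 0 := by
  intro h0
  have := cf_mul h
  rw [h0, zero_mul] at this
  exact (Nat.factorial_ne_zero _) this.symm

lemma Zp_coeff {N j : ℕ} (hj : j ≤ N / 2) :
    (Zp N).coeff (N / 2 - j) = (-1) ^ j * (cf N j : ℤ) := by
  unfold Zp
  rw [finsetSum_coeff, Finset.sum_eq_single j]
  · rw [coeff_C_mul, coeff_X_pow, if_pos rfl, mul_one]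
  · intro b hb hbj
    rw [Finset.mem_range] at hb
    rw [coeff_C_mul, coeff_X_pow, if_neg (by omega), mul_zero]
  · intro h
    exact absurd (Finset.mem_range.2 (by omega)) h

lemma Zp_coeff_of_lt {N i : ℕ} (hi : N / 2 < i) : (Zp N).coeff i = 0 := by
  unfold Zp
  rw [finsetSum_coeff]
  apply Finset.sum_eq_zero
  intro b hb
  rw [coeff_C_mul, coeff_X_pow, if_neg (by omega), mul_zero]

lemma Zp_coeff_top (N : ℕ) : (Zp N).coeff (N / 2) = 1 := by
  have := Zp_coeff (N := N) (j := 0) (Nat.zero_le _)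
  simpa [cf_zero] using this

lemma Zp_natDegree (N : ℕ) : (Zp N).natDegree = N / 2 := by
  apply le_antisymm
  · rw [natDegree_le_iff_coeff_eq_zero]
    intro i hi
    exact Zp_coeff_of_lt hi
  · apply le_natDegree_of_ne_zero
    rw [Zp_coeff_top]; exact one_ne_zero

lemma Zp_monic (N : ℕ) : (Zp N).Monic := by
  unfold Monic leadingCoeff
  rw [Zp_natDegree, Zp_coeff_top]

lemma natAbs_coeff {N j : ℕ} (hj : j ≤ N / 2) : ((Zp N).coeff (N / 2 - j)).natAbs = cf N j := by
  rw [Zp_coeff hj, Int.natAbs_mul, Int.natAbs_pow]; simp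

/-- Legendre's formula for arguments below `p^3`. -/
def lg (p x : ℕ) : ℕ := x / p + x / p ^ 2

lemma padicValNat_factorial_lg {p x : ℕ} (hp : p.Prime) (hx : x < p ^ 3) :
    padicValNat p x.factorial = lg p x := by
  have : Fact p.Prime := ⟨hp⟩
  have h1 : Nat.log p x < 3 := by
    rcases Nat.eq_zero_or_pos x with h | h
    · rw [h]; simp
    · exact Nat.log_lt_of_lt_pow (by omega) hx
  rw [padicValNat_factorial h1]
  unfold lg
  rw [Finset.sum_Ico_eq_sum_range]
  simp [Finset.sum_range_succ]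

lemma padicValNat_cf {p N j : ℕ} (hp : p.Prime) (hN : 2 * N < p ^ 3) (hj : 2 * j ≤ N) :
    padicValNat p (cf N j) + (lg p (2 * j) + lg p (N - 2 * j)) = lg p (N + 2 * j) := by
  have : Fact p.Prime := ⟨hp⟩
  have h1 := congrArg (padicValNat p) (cf_mul hj)
  rw [padicValNat.mul (cf_ne_zero hj) (mul_ne_zero (Nat.factorial_ne_zero _)
    (Nat.factorial_ne_zero _)), padicValNat.mul (Nat.factorial_ne_zero _)
    (Nat.factorial_ne_zero _), padicValNat_factorial_lg hp (by omega),
    padicValNat_factorial_lg hp (by omega), padicValNat_factorial_lg hp (by omega)] at h1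
  exact h1

/-- Eisenstein's criterion. -/
lemma Zp_irreducible {N q : ℕ} (hN : 2 ≤ N) (hq : q.Prime) (h1 : N < q) (h2 : q ≤ N + 2) :
    Irreducible (Zp N) := by
  have hq3 : 2 * N < q ^ 3 := by
    have : 3 ≤ q := by omega
    have h3 : q * 9 ≤ q ^ 3 := by
      rw [pow_succ' q 2]; exact Nat.mul_le_mul_left _ (by nlinarith)
    omega
  have : Fact q.Prime := ⟨hq⟩
  have hdiv : ∀ x, x < q → x / q = 0 := fun x hx => Nat.div_eq_of_lt hx
  have hsq : q < q ^ 2 := by nlinarith
  have hsq2 : 2 * q < q ^ 2 := by nlinarith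
  have hval : ∀ j, 1 ≤ j → 2 * j ≤ N → padicValNat q (cf N j) = 1 := by
    intro j hj hjN
    have h3 := padicValNat_cf hq hq3 hjN
    unfold lg at h3
    rw [hdiv (2 * j) (by omega), hdiv (N - 2 * j) (by omega),
      Nat.div_eq_of_lt (show 2 * j < q ^ 2 by omega),
      Nat.div_eq_of_lt (show N - 2 * j < q ^ 2 by omega),
      Nat.div_eq_of_lt (show N + 2 * j < q ^ 2 by omega)] at h3
    have h4 : (N + 2 * j) / q = 1 := Nat.div_eq_of_lt_le (by omega) (by omega)
    omega
  have hP : (Ideal.span {(q : ℤ)}).IsPrime := by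
    rw [Ideal.span_singleton_prime (by exact_mod_cast hq.ne_zero)]
    exact Nat.prime_iff_prime_int.1 hq
  apply Polynomial.irreducible_of_eisenstein_criterion hP
  · rw [(Zp_monic N).leadingCoeff, ← Ideal.ne_top_iff_one]
    exact hP.ne_top
  · intro i hi
    rw [degree_eq_natDegree (Zp_monic N).ne_zero, Zp_natDegree] at hi
    have hi' : i < N / 2 := by exact_mod_cast hi
    have e : i = N / 2 - (N / 2 - i) := by omega
    rw [e, Zp_coeff (by omega), Ideal.mem_span_singleton]
    apply Dvd.dvd.mul_left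
    have h3 := hval (N / 2 - i) (by omega) (by omega)
    exact_mod_cast dvd_of_one_le_padicValNat h3.ge
  · rw [degree_eq_natDegree (Zp_monic N).ne_zero, Zp_natDegree]
    have : 0 < N / 2 := by omega
    exact_mod_cast this
  · have e : (0 : ℕ) = N / 2 - N / 2 := by omega
    rw [e, Zp_coeff le_rfl, Ideal.span_singleton_pow, Ideal.mem_span_singleton]
    intro h
    have h3 : ((q : ℤ) ^ 2).natAbs ∣ ((-1) ^ (N / 2) * (cf N (N / 2) : ℤ)).natAbs :=
      Int.natAbs_dvd_natAbs.2 h
    rw [Int.natAbs_mul, Int.natAbs_pow, Int.natAbs_pow] at h3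
    simp only [Int.natAbs_natCast, Int.natAbs_neg, Int.natAbs_one, one_pow, one_mul] at h3
    have h4 := hval (N / 2) (by omega) (by omega)
    have h5 := (padicValNat_dvd_iff_le (cf_ne_zero (N := N) (j := N / 2) (by omega))).1 h3
    omega
  · exact (Zp_monic N).isPrimitive

/-- General Newton polygon input for `Zp N`. -/
theorem Zp_prime_dvd (K : Type*) [Field K] [NumberField K] [IsGalois ℚ K] {N : ℕ}
    (hsplit : ((Zp N).map (Int.castRingHom K)).Splits) {p r s c : ℕ} (hp : p.Prime)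
    (hr : r.Prime) (hs : ¬ r ∣ s) (hN : 2 * N < p ^ 3)
    (hM : ∀ j, 2 * j ≤ N → s * j + r * (lg p (2 * j) + lg p (N - 2 * j)) ≤
      r * lg p (N + 2 * j) + c)
    {j₁ j₂ : ℕ} (hne : j₁ ≠ j₂) (hj₁ : 2 * j₁ ≤ N) (hj₂ : 2 * j₂ ≤ N)
    (h1 : s * j₁ + r * (lg p (2 * j₁) + lg p (N - 2 * j₁)) = r * lg p (N + 2 * j₁) + c)
    (h2 : s * j₂ + r * (lg p (2 * j₂) + lg p (N - 2 * j₂)) = r * lg p (N + 2 * j₂) + c) :
    r ∣ Module.finrank ℚ K := by
  have hle : ∀ j, 2 * j ≤ N → s * j ≤ r * padicValNat p (cf N j) + c := by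
    intro j hj
    have h3 := padicValNat_cf hp hN hj
    have h4 := hM j hj
    rw [← h3] at h4
    generalize lg p (2 * j) + lg p (N - 2 * j) = A at h4
    rw [mul_add] at h4
    omega
  have heq : ∀ j, 2 * j ≤ N →
      s * j + r * (lg p (2 * j) + lg p (N - 2 * j)) = r * lg p (N + 2 * j) + c →
      s * j = r * padicValNat p (cf N j) + c := by
    intro j hj h
    have h3 := padicValNat_cf hp hN hj
    rw [← h3] at h
    generalize lg p (2 * j) + lg p (N - 2 * j) = A at h
    rw [mul_add] at h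
    omega
  have hmm : ∀ j, j ≤ N / 2 → s * (N / 2 - j) + s * j = s * (N / 2) := by
    intro j hj
    rw [← mul_add]; congr 1; omega
  refine prime_dvd_finrank K (Zp_monic N) hsplit hp hr hs (M := s * (N / 2) - c)
    (i₁ := N / 2 - j₁) (i₂ := N / 2 - j₂) ?_ (by omega) ?_ ?_ ?_ ?_
  · intro i hi
    have hi' : i ≤ N / 2 := by
      by_contra hcon
      exact hi (Zp_coeff_of_lt (by omega))
    have e : i = N / 2 - (N / 2 - i) := by omega
    have h3 := hle (N / 2 - i) (by omega)
    have h4 := hmm (N / 2 - i) (by omega)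
    rw [e, natAbs_coeff (by omega)]
    omega
  · intro h
    have h3 := natAbs_coeff (N := N) (j := j₁) (by omega)
    rw [h] at h3
    exact cf_ne_zero hj₁ h3.symm
  · have h3 := heq j₁ hj₁ h1
    have h4 := hmm j₁ (by omega)
    rw [natAbs_coeff (by omega)]
    omega
  · intro h
    have h3 := natAbs_coeff (N := N) (j := j₂) (by omega)
    rw [h] at h3
    exact cf_ne_zero hj₂ h3.symm
  · have h3 := heq j₂ hj₂ h2
    have h4 := hmm j₂ (by omega)
    rw [natAbs_coeff (by omega)]
    omega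

end Pool.Agent.Lib.MP_ff3579_an
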