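import Mathlib

/-! A prime `r` dividing the order of a solvable transitive permutation group of degree `m`
divides `m` or `p^i - 1` for some prime power `p^i` dividing `m`. -/

set_option autoImplicit false

open MulAction Pointwise
open scoped commutatorElement

namespace Pool.Agent.Lib.MP_ff3579_an

/-- the arithmetic conclusion -/
def Admissible (r m : ℕ) : Prop :=
  r ∣ m ∨ ∃ p i : ℕ, p.Prime ∧ 0 < i ∧ p ^ i ∣ m ∧ r ∣ p ^ i - 1

lemma Admissible.mono {r m m' : ℕ} (h : Admissible r m) (hm : m ∣ m') : Admissible r m' := by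
  rcases h with h | ⟨p, i, hp, hi, h1, h2⟩
  · exact Or.inl (h.trans hm)
  · exact Or.inr ⟨p, i, hp, hi, h1.trans hm, h2⟩

/-- a nontrivial solvable group has a nontrivial commutative normal subgroup -/
lemma exists_comm_normal (G : Type*) [Group G] [Nontrivial G] (hG : Group.IsSolvable G) :
    ∃ V : Subgroup G, V.Normal ∧ V ≠ ⊥ ∧ ∀ x ∈ V, ∀ y ∈ V, x * y = y * x := by
  classical
  obtain ⟨n, hn⟩ := hG.solvable
  have hex : ∃ n, derivedSeries G n = ⊥ := ⟨n, hn⟩
  set k := Nat.find hex with hk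
  have hk0 : derivedSeries G k = ⊥ := Nat.find_spec hex
  have hkpos : k ≠ 0 := by
    intro h0
    rw [h0, derivedSeries_zero] at hk0
    exact absurd hk0 (by simp)
  obtain ⟨j, hj⟩ := Nat.exists_eq_succ_of_ne_zero hkpos
  refine ⟨derivedSeries G j, inferInstance, Nat.find_min hex (by omega), ?_⟩
  intro x hx y hy
  rw [hj, Nat.succ_eq_add_one, derivedSeries_succ] at hk0
  have h1 : ⁅x, y⁆ ∈ ⁅derivedSeries G j, derivedSeries G j⁆ := Subgroup.commutator_mem_commutator hx hy
  rw [hk0, Subgroup.mem_bot] at h1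
  exact commutatorElement_eq_one_iff_mul_comm.1 h1

/-- the elements of order dividing `p` in a commutative normal subgroup -/
def torsionPart {G : Type*} [Group G] (V : Subgroup G) (hc : ∀ x ∈ V, ∀ y ∈ V, x * y = y * x)
    (p : ℕ) : Subgroup G where
  carrier := {w | w ∈ V ∧ w ^ p = 1}
  one_mem' := ⟨V.one_mem, one_pow _⟩
  mul_mem' := by
    rintro a b ⟨ha, ha'⟩ ⟨hb, hb'⟩
    refine ⟨V.mul_mem ha hb, ?_⟩
    have : Commute a b := hc a ha b hb
    rw [this.mul_pow, ha', hb', mul_one]
  inv_mem' := by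
    rintro a ⟨ha, ha'⟩
    exact ⟨V.inv_mem ha, by rw [inv_pow, ha', inv_one]⟩

lemma mem_torsionPart {G : Type*} [Group G] {V : Subgroup G}
    {hc : ∀ x ∈ V, ∀ y ∈ V, x * y = y * x} {p : ℕ} {w : G} :
    w ∈ torsionPart V hc p ↔ w ∈ V ∧ w ^ p = 1 := Iff.rfl

lemma torsionPart_normal {G : Type*} [Group G] {V : Subgroup G} (hV : V.Normal)
    (hc : ∀ x ∈ V, ∀ y ∈ V, x * y = y * x) (p : ℕ) : (torsionPart V hc p).Normal := by
  constructor
  rintro n ⟨hn, hn'⟩ g
  refine ⟨hV.conj_mem n hn g, ?_⟩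
  rw [conj_pow, hn', mul_one, mul_inv_cancel]

/-- structure: a nontrivial finite solvable group has a nontrivial elementary abelian normal
subgroup. -/
lemma exists_elementary (G : Type*) [Group G] [Finite G] [Nontrivial G]
    (hG : Group.IsSolvable G) : ∃ (p : ℕ) (W : Subgroup G), p.Prime ∧ W.Normal ∧ W ≠ ⊥ ∧
      IsPGroup p W ∧ ∀ x ∈ W, ∀ y ∈ W, x * y = y * x := by
  obtain ⟨V, hV, hVb, hc⟩ := exists_comm_normal G hG
  have hcard : Nat.card V ≠ 1 := fun h => hVb ((Subgroup.card_eq_one).1 h)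
  obtain ⟨p, hp, hpd⟩ := Nat.exists_prime_and_dvd hcard
  have : Fact p.Prime := ⟨hp⟩
  refine ⟨p, torsionPart V hc p, hp, torsionPart_normal hV hc p, ?_, ?_, ?_⟩
  · obtain ⟨x, hx⟩ := exists_prime_orderOf_dvd_card' p hpd
    intro h
    have h1 : (x : G) ∈ torsionPart V hc p := by
      refine ⟨x.2, ?_⟩
      have := pow_orderOf_eq_one x
      rw [hx] at this
      exact_mod_cast congrArg Subtype.val this
    rw [h, Subgroup.mem_bot] at h1
    have h2 : x = 1 := Subtype.ext h1
    rw [h2, orderOf_one] at hx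
    exact hp.one_lt.ne hx
  · intro x
    refine ⟨1, ?_⟩
    rw [pow_one]
    exact Subtype.ext x.2.2
  · intro x hx y hy
    exact hc x hx.1 y hy.1

theorem admissible_aux {r : ℕ} (hr : r.Prime) : ∀ (n : ℕ) (X : Type) [Finite X]
    (G : Subgroup (Equiv.Perm X)), Nat.card X = n → IsPretransitive G X → Group.IsSolvable G →
    ∀ σ : G, σ ^ r = 1 → σ ≠ 1 → Admissible r n := by
  intro n
  induction n using Nat.strong_induction_on with
  | _ n ih =>
  intro X _ G hX htrans hsolv σ hσ hσ1
  have : Fact r.Prime := ⟨hr⟩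
  have : Finite (Equiv.Perm X) := inferInstance
  have : Finite G := inferInstance
  have : Nontrivial G := ⟨σ, 1, hσ1⟩
  obtain ⟨p, W, hp, hWn, hWb, hWp, hWc⟩ := exists_elementary G hsolv
  have : Fact p.Prime := ⟨hp⟩
  have hWn' := hWn
  -- a point moved by `W`
  obtain ⟨w₀, hw₀1⟩ := Subgroup.ne_bot_iff_exists_ne_one.1 hWb
  obtain ⟨x₀, hx₀⟩ : ∃ x : X, (w₀ : G) • x ≠ x := by
    by_contra hcon
    push Not at hcon
    apply hw₀1
    apply Subtype.ext
    apply Subtype.ext
    apply Equiv.ext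
    intro x
    exact hcon x
  -- all orbits of `W` are translates of the orbit of `x₀`
  set B₀ : Set X := orbit W x₀ with hB₀
  have horb : ∀ (g : G) (x : X), g • (orbit W x : Set X) = orbit W (g • x) :=
    fun g x => smul_orbit_eq_orbit_smul W x g
  have hblock : IsBlock G B₀ := IsBlock.orbit_of_normal x₀
  have hB₀ne : B₀.Nonempty := ⟨x₀, mem_orbit_self _⟩
  have hmul := hblock.ncard_block_mul_ncard_orbit_eq hB₀ne
  rw [hX] at hmul
  obtain ⟨a, ha⟩ := hWp.card_orbit x₀
  have ha' : B₀.ncard = p ^ a := ha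
  have hB₀two : 1 < B₀.ncard := by
    rw [Set.one_lt_ncard_iff_nontrivial]
    exact ⟨x₀, mem_orbit_self _, (w₀ : G) • x₀, ⟨w₀, rfl⟩, fun h => hx₀ h.symm⟩
  have hdvd : p ^ a ∣ n := ⟨_, by rw [← ha']; exact hmul.symm⟩
  -- the action on the blocks
  let Bl : Type := orbit G B₀
  have : Finite (Set X) := inferInstance
  have : Finite Bl := inferInstance
  let φ : G →* Equiv.Perm Bl := toPermHom G Bl
  have hBl : Nat.card Bl * B₀.ncard = n := by
    rw [← hmul, mul_comm]; rfl
  have hnpos : 0 < n := by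
    rw [← hX]
    have : Nonempty X := ⟨x₀⟩
    exact Nat.card_pos
  have hBlpos : 0 < Nat.card Bl := by
    rcases Nat.eq_zero_or_pos (Nat.card Bl) with h | h
    · rw [h, zero_mul] at hBl; omega
    · exact h
  have hBln : Nat.card Bl < n := by
    rw [← hBl]
    exact (Nat.lt_mul_iff_one_lt_right hBlpos).2 hB₀two
  by_cases hφ : φ σ = 1
  · -- `σ` fixes all blocks
    have hfix : ∀ x : X, σ • (orbit W x : Set X) = orbit W x := by
      intro x
      obtain ⟨g, hg⟩ := htrans.exists_smul_eq x₀ x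
      have hmem : (orbit W x : Set X) ∈ orbit G B₀ := ⟨g, by
        change g • B₀ = _
        rw [hB₀, horb, hg]⟩
      have h1 := congrArg (fun f : Equiv.Perm Bl => ((f ⟨_, hmem⟩ : Bl) : Set X)) hφ
      exact h1
    obtain ⟨x₁, hx₁⟩ : ∃ x : X, σ • x ≠ x := by
      by_contra hcon
      push Not at hcon
      apply hσ1
      apply Subtype.ext
      apply Equiv.ext
      intro x
      exact hcon x
    set B₁ : Set X := orbit W x₁ with hB₁
    have hσB₁ : ∀ x ∈ B₁, σ • x ∈ B₁ := by
      intro x hx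
      have h1 : σ • x ∈ σ • B₁ := Set.smul_mem_smul_set hx
      have h2 : σ • B₁ = B₁ := hfix x₁
      rwa [h2] at h1
    have hB₁card : B₁.ncard = p ^ a := by
      obtain ⟨g, hg⟩ := htrans.exists_smul_eq x₀ x₁
      have : B₁ = g • B₀ := by rw [hB₁, hB₀, horb, hg]
      rw [this, Set.ncard_smul_set, ha']
    by_cases hrp : r ∣ p ^ a
    · exact Or.inl (hrp.trans hdvd)
    -- counting fixed points of `σ` on `B₁`
    classical
    let f : Function.End B₁ := fun x => ⟨σ • (x : X), hσB₁ x x.2⟩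
    have hfpow : ∀ (k : ℕ) (x : B₁), ((f ^ k) x : X) = (σ ^ k) • (x : X) := by
      intro k
      induction k with
      | zero => intro x; rw [pow_zero, pow_zero, one_smul]; rfl
      | succ k ihk =>
        intro x
        rw [pow_succ', pow_succ']
        change ((f ((f ^ k) x) : B₁) : X) = _
        rw [mul_smul, ← ihk x]
    have hfr : f ^ r ^ 1 = 1 := by
      funext x
      apply Subtype.ext
      rw [pow_one, hfpow, hσ, one_smul]
      rfl
    have : Fintype B₁ := Fintype.ofFinite _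
    have hmod := Equiv.Perm.card_fixedPoints_modEq (p := r) (n := 1) hfr
    have hcardB₁ : Fintype.card B₁ = p ^ a := by
      rw [← hB₁card, ← Nat.card_coe_set_eq, Nat.card_eq_fintype_card]
    have hFne : Fintype.card (Function.fixedPoints f) ≠ 0 := by
      intro h0
      rw [h0, hcardB₁] at hmod
      exact hrp ((Nat.modEq_zero_iff_dvd).1 hmod)
    obtain ⟨⟨b, hb⟩⟩ : Nonempty (Function.fixedPoints f) :=
      Fintype.card_pos_iff.1 (Nat.pos_of_ne_zero hFne)
    have hbX : σ • (b : X) = b := congrArg Subtype.val hb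
    have hbB : (b : X) ∈ orbit W x₁ := b.2
    -- the subgroup `U`
    have hcomm : ∀ w ∈ W, ∀ w' ∈ W, ∀ x : X, w • w' • x = w' • w • x := by
      intro w hw w' hw' x
      rw [smul_smul, smul_smul, hWc w hw w' hw']
    have hconj : ∀ w ∈ W, ∀ x : X, σ • w • x = (σ * w * σ⁻¹) • σ • x := by
      intro w _ x
      simp [mul_smul]
    let U : Subgroup G :=
      { carrier := {w | w ∈ W ∧ σ • w • (b : X) = w • (b : X)}
        one_mem' := ⟨W.one_mem, by simp [hbX]⟩
        mul_mem' := by
          rintro w w' ⟨hw, hw1⟩ ⟨hw', hw1'⟩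
          refine ⟨W.mul_mem hw hw', ?_⟩
          rw [mul_smul, hconj w hw, hw1',
            hcomm _ (hWn'.conj_mem w hw σ) w' hw', hcomm w hw w' hw']
          congr 1
          rw [← hbX, ← hconj w hw, hbX, hw1]
        inv_mem' := by
          rintro w ⟨hw, hw1⟩
          refine ⟨W.inv_mem hw, ?_⟩
          have h1 : (σ * w⁻¹ * σ⁻¹) • (σ * w * σ⁻¹) • (b : X) = b := by
            simp [mul_smul]
          have h2 : (σ * w * σ⁻¹) • (b : X) = w • (b : X) := by
            conv_lhs => rw [← hbX]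
            rw [← hconj w hw, hw1]
          have h3 : σ • w⁻¹ • (b : X) = (σ * w⁻¹ * σ⁻¹) • (b : X) := by
            rw [hconj w⁻¹ (W.inv_mem hw), hbX]
          rw [h3]
          rw [h2, hcomm _ (hWn'.conj_mem w⁻¹ (W.inv_mem hw) σ) w hw] at h1
          rw [eq_inv_smul_iff, h1] }
    have hUW : U ≤ W := fun w hw => hw.1
    have hUp : IsPGroup p U := hWp.to_le hUW
    obtain ⟨c, hc⟩ := hUp.card_orbit (b : X)
    -- the fixed points are the orbit of `U`
    have hFset : ∀ x : X, (x ∈ B₁ ∧ σ • x = x) ↔ x ∈ orbit U (b : X) := by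
      intro x
      constructor
      · rintro ⟨hx, hx'⟩
        have h1 : x ∈ orbit W (b : X) := by
          rw [orbit_eq_iff.2 hbB]; exact hx
        obtain ⟨w, hw⟩ := h1
        refine ⟨⟨w, w.2, ?_⟩, hw⟩
        have hw' : (w : G) • (b : X) = x := hw
        rw [hw', hx']
      · rintro ⟨u, hu⟩
        have hu' : (u : G) • (b : X) = x := hu
        refine ⟨?_, ?_⟩
        · rw [hB₁, ← orbit_eq_iff.2 hbB]
          exact ⟨⟨u, hUW u.2⟩, hu'⟩
        · rw [← hu']; exact u.2.2
    have hFcard : Fintype.card (Function.fixedPoints f) = p ^ c := by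
      rw [← hc, ← Nat.card_eq_fintype_card]
      refine Nat.card_congr ⟨fun x => ⟨x.1.1, (hFset _).1 ⟨x.1.2, congrArg Subtype.val x.2⟩⟩,
        fun x => ⟨⟨x.1, ((hFset _).2 x.2).1⟩, Subtype.ext ((hFset _).2 x.2).2⟩, ?_, ?_⟩
      · intro x; rfl
      · intro x; rfl
    have hlt : Fintype.card (Function.fixedPoints f) < Fintype.card B₁ := by
      apply Fintype.card_subtype_lt (x := ⟨x₁, mem_orbit_self x₁⟩)
      intro h
      exact hx₁ (congrArg Subtype.val h)
    rw [hFcard, hcardB₁] at hlt hmod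
    have hca : c < a := (Nat.pow_lt_pow_iff_right hp.one_lt).1 hlt
    refine Or.inr ⟨p, a - c, hp, by omega, (pow_dvd_pow p (by omega)).trans hdvd, ?_⟩
    have h1 : r ∣ p ^ a - p ^ c := (Nat.modEq_iff_dvd' hlt.le).1 hmod.symm
    have h2 : p ^ a - p ^ c = p ^ c * (p ^ (a - c) - 1) := by
      rw [Nat.mul_sub, mul_one, ← pow_add]
      congr 2; omega
    rw [h2] at h1
    refine ((Nat.Prime.dvd_mul hr).1 h1).resolve_left ?_
    intro h3
    exact hrp (h3.trans (pow_dvd_pow p hca.le))
  · -- `σ` moves a block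
    have hsolv' : Group.IsSolvable φ.range :=
      Group.isSolvable_of_surjective (f := φ.rangeRestrict) φ.rangeRestrict_surjective
    have htrans' : IsPretransitive φ.range Bl := by
      constructor
      intro x y
      obtain ⟨g, hg⟩ := (inferInstance : IsPretransitive G Bl).exists_smul_eq x y
      exact ⟨⟨φ g, g, rfl⟩, hg⟩
    have h1 := ih (Nat.card Bl) hBln Bl φ.range rfl htrans' hsolv' ⟨φ σ, σ, rfl⟩
      (by apply Subtype.ext; simp [← map_pow, hσ])
      (fun h => hφ (congrArg Subtype.val h))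
    exact h1.mono ⟨_, hBl.symm⟩

end Pool.Agent.Lib.MP_ff3579_an
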