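import Mathlib
import Pool.Agent.Lib.MP_ff3579_an.Arithmetic
import Pool.Agent.Lib.MP_ff3579_an.SolvableAction

/-! Assembly of the Galois theoretic part. -/

set_option autoImplicit false

open Polynomial

namespace Pool.Agent.Lib.MP_ff3579_an

theorem admissible_of_solvable {f : ℤ[X]} (hf : f.Monic) (hirr : Irreducible f) {r : ℕ}
    (hr : r.Prime)
    (hdvd : r ∣ Module.finrank ℚ (f.map (Int.castRingHom ℚ)).SplittingField)
    (hs : Group.IsSolvable (f.map (Int.castRingHom ℚ)).Gal) : Admissible r f.natDegree := by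
  have : Fact r.Prime := ⟨hr⟩
  set g := f.map (Int.castRingHom ℚ) with hg
  have hgirr : Irreducible g := by
    have := (hf.irreducible_iff_irreducible_map_fraction_map (K := ℚ)).1 hirr
    rwa [algebraMap_int_eq] at this
  have hsep : g.Separable := hgirr.separable
  rw [← Gal.card_of_separable hsep] at hdvd
  obtain ⟨s, hs'⟩ := exists_prime_orderOf_dvd_card' r hdvd
  have : Fact ((g.map (algebraMap ℚ g.SplittingField)).Splits) := ⟨SplittingField.splits g⟩
  let φ := Gal.galActionHom g g.SplittingField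
  have hφ : Function.Injective φ := Gal.galActionHom_injective g g.SplittingField
  have htr := Gal.galAction_isPretransitive g g.SplittingField hgirr
  have hcard : Nat.card (g.rootSet g.SplittingField) = f.natDegree := by
    rw [← hf.natDegree_map (Int.castRingHom ℚ), ← hg,
      ← card_rootSet_eq_natDegree hsep (SplittingField.splits g)]
    exact Nat.card_eq_fintype_card
  refine admissible_aux hr f.natDegree (g.rootSet g.SplittingField) φ.range hcard ?_ ?_
    ⟨φ s, s, rfl⟩ ?_ ?_
  · constructor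
    intro x y
    obtain ⟨t, ht⟩ := htr.exists_smul_eq x y
    exact ⟨⟨φ t, t, rfl⟩, ht⟩
  · exact Group.isSolvable_of_surjective (f := φ.rangeRestrict) φ.rangeRestrict_surjective
  · apply Subtype.ext
    have h1 : s ^ r = 1 := by rw [← hs']; exact pow_orderOf_eq_one s
    simp [← map_pow, h1]
  · intro h
    have h1 : φ s = 1 := congrArg Subtype.val h
    have h2 : s = 1 := hφ (by rw [h1, map_one])
    rw [h2, orderOf_one] at hs'
    exact hr.one_lt.ne hs'

/-- A version of `Zp_prime_dvd` with a free rational algebra structure. -/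
theorem Zp_prime_dvd' (K : Type*) [Field K] [inst : Algebra ℚ K] [IsGalois ℚ K]
    [FiniteDimensional ℚ K] {N : ℕ}
    (hsplit : ((Zp N).map (Int.castRingHom K)).Splits) {p r s c : ℕ} (hp : p.Prime)
    (hr : r.Prime) (hs : ¬ r ∣ s) (hN : 2 * N < p ^ 3)
    (hM : ∀ j, 2 * j ≤ N → s * j + r * (lg p (2 * j) + lg p (N - 2 * j)) ≤
      r * lg p (N + 2 * j) + c)
    {j₁ j₂ : ℕ} (hne : j₁ ≠ j₂) (hj₁ : 2 * j₁ ≤ N) (hj₂ : 2 * j₂ ≤ N)
    (h1 : s * j₁ + r * (lg p (2 * j₁) + lg p (N - 2 * j₁)) = r * lg p (N + 2 * j₁) + c)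
    (h2 : s * j₂ + r * (lg p (2 * j₂) + lg p (N - 2 * j₂)) = r * lg p (N + 2 * j₂) + c) :
    r ∣ Module.finrank ℚ K := by
  have hc : CharZero K := algebraRat.charZero K
  have e : inst = DivisionRing.toRatAlgebra := Subsingleton.elim _ _
  subst e
  have : NumberField K := ⟨⟩
  exact Zp_prime_dvd K hsplit hp hr hs hN hM hne hj₁ hj₂ h1 h2

/-- The criterion used for the sharp Markov constants. -/
theorem criterion {N p r s c : ℕ} (hirr : Irreducible (Zp N)) (hp : p.Prime)
    (hr : r.Prime) (hs : ¬ r ∣ s) (hN : 2 * N < p ^ 3)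
    (hM : ∀ j, 2 * j ≤ N → s * j + r * (lg p (2 * j) + lg p (N - 2 * j)) ≤
      r * lg p (N + 2 * j) + c)
    {j₁ j₂ : ℕ} (hne : j₁ ≠ j₂) (hj₁ : 2 * j₁ ≤ N) (hj₂ : 2 * j₂ ≤ N)
    (h1 : s * j₁ + r * (lg p (2 * j₁) + lg p (N - 2 * j₁)) = r * lg p (N + 2 * j₁) + c)
    (h2 : s * j₂ + r * (lg p (2 * j₂) + lg p (N - 2 * j₂)) = r * lg p (N + 2 * j₂) + c)
    (hsol : Group.IsSolvable ((Zp N).map (Int.castRingHom ℚ)).Gal) : Admissible r (N / 2) := by
  have h := Zp_natDegree N
  rw [← h]
  refine admissible_of_solvable (Zp_monic N) hirr hr ?_ hsol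
  set g := (Zp N).map (Int.castRingHom ℚ) with hg
  have hgirr : Irreducible g := by
    have := ((Zp_monic N).irreducible_iff_irreducible_map_fraction_map (K := ℚ)).1 hirr
    rwa [algebraMap_int_eq] at this
  have hgal := @IsGalois.of_separable_splitting_field ℚ _ g.SplittingField _ _ g
    (IsSplittingField.splittingField g) hgirr.separable
  refine @Zp_prime_dvd' g.SplittingField _ _ hgal
    (@IsSplittingField.finiteDimensional ℚ g.SplittingField _ _ _ g
      (IsSplittingField.splittingField g)) N ?_ p r s c hp hr hs hN hM j₁ j₂ hne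
    hj₁ hj₂ h1 h2
  have h3 := SplittingField.splits g
  rw [hg, Polynomial.map_map] at h3
  have h4 : Int.castRingHom g.SplittingField =
    (algebraMap ℚ (map (Int.castRingHom ℚ) (Zp N)).SplittingField).comp (Int.castRingHom ℚ) :=
    RingHom.ext_int _ _
  rw [h4]
  exact h3

/-- Non-expressibility by radicals from non-solvability. -/
theorem not_mem_of_not_solvable {n : ℕ} (hn : 1 ≤ n) (hirr : Irreducible (Zp (n + 1)))
    (h : ¬ Group.IsSolvable ((Zp (n + 1)).map (Int.castRingHom ℚ)).Gal) :
    ((markovConst n 2 : ℝ) : ℂ) ∉ solvableByRad ℚ ℂ := by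
  intro hmem
  apply h
  have hgirr : Irreducible ((Zp (n + 1)).map (Int.castRingHom ℚ)) := by
    have := ((Zp_monic (n + 1)).irreducible_iff_irreducible_map_fraction_map (K := ℚ)).1 hirr
    rwa [algebraMap_int_eq] at this
  have hx : (4 * (markovConst n 2 : ℂ) ^ 2) ∈ solvableByRad ℚ ℂ := by
    apply mul_mem
    · simp
    · exact pow_mem hmem 2
  refine isSolvable_gal_of_irreducible hx hgirr ?_
  have h1 := (aeval_markovConst hn).1
  rw [← algebraMap_int_eq, aeval_map_algebraMap]
  have h2 := congrArg (fun x : ℝ => (x : ℂ)) h1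
  simp only [Complex.ofReal_zero] at h2
  rw [← h2, ← Complex.coe_algebraMap, ← aeval_algebraMap_apply]
  congr 1
  simp

/-- The degree of the square of the sharp constant. -/
theorem natDegree_minpoly {n : ℕ} (hn : 1 ≤ n) (hirr : Irreducible (Zp (n + 1))) :
    (minpoly ℚ (markovConst n 2 ^ 2)).natDegree = (n + 1) / 2 := by
  have hgirr : Irreducible ((Zp (n + 1)).map (Int.castRingHom ℚ)) := by
    have := ((Zp_monic (n + 1)).irreducible_iff_irreducible_map_fraction_map (K := ℚ)).1 hirr
    rwa [algebraMap_int_eq] at this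
  have h1 := (aeval_markovConst hn).1
  have h2 : aeval (4 * markovConst n 2 ^ 2) ((Zp (n + 1)).map (Int.castRingHom ℚ)) = 0 := by
    rw [← algebraMap_int_eq, aeval_map_algebraMap]; exact h1
  have h3 : minpoly ℚ (4 * markovConst n 2 ^ 2) = (Zp (n + 1)).map (Int.castRingHom ℚ) :=
    (minpoly.eq_of_irreducible_of_monic hgirr h2 ((Zp_monic _).map _)).symm
  have h4 : (minpoly ℚ (4 * markovConst n 2 ^ 2)).natDegree = (n + 1) / 2 := by
    rw [h3, (Zp_monic _).natDegree_map, Zp_natDegree]
  rw [← h4]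
  have hint : IsIntegral ℚ (4 * markovConst n 2 ^ 2) :=
    ⟨_, (Zp_monic (n + 1)).map _, h2⟩
  have e : markovConst n 2 ^ 2 = (algebraMap ℚ ℝ (1 / 4)) * (4 * markovConst n 2 ^ 2) := by
    simp
  have hint' : IsIntegral ℚ (markovConst n 2 ^ 2) := by
    rw [e]; exact isIntegral_algebraMap.mul hint
  rw [← IntermediateField.adjoin.finrank hint, ← IntermediateField.adjoin.finrank hint']
  have h5 : IntermediateField.adjoin ℚ {markovConst n 2 ^ 2} =
      IntermediateField.adjoin ℚ {4 * markovConst n 2 ^ 2} := by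
    apply le_antisymm
    · rw [IntermediateField.adjoin_simple_le_iff]
      have h6 := mul_mem (IntermediateField.algebraMap_mem
        (IntermediateField.adjoin ℚ {4 * markovConst n 2 ^ 2}) (1 / 4))
        (IntermediateField.mem_adjoin_simple_self ℚ (4 * markovConst n 2 ^ 2))
      rwa [← e] at h6
    · rw [IntermediateField.adjoin_simple_le_iff]
      have e2 : (4 * markovConst n 2 ^ 2 : ℝ) = algebraMap ℚ ℝ 4 * markovConst n 2 ^ 2 := by simp
      rw [e2]
      exact mul_mem (IntermediateField.algebraMap_mem _ _)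
        (IntermediateField.mem_adjoin_simple_self _ _)
  rw [h5]

end Pool.Agent.Lib.MP_ff3579_an
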