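import Mathlib
import Pool.Agent.Lib.MP_ff3579_an.Galois

/-! Choice of the auxiliary primes. -/

set_option autoImplicit false

open Polynomial

namespace Pool.Agent.Lib.MP_ff3579_an

/-- The standard supporting line at a prime `r` with `2N < r^2`. -/
theorem standard {N r : ℕ} (hirr : Irreducible (Zp N)) (hr : r.Prime) (hr2 : r ≠ 2)
    (hN : 2 * N < r ^ 2) (hK : min (N % r) (r - 1 - N % r) % 2 + 2 ≤ N / r)
    (hsol : Group.IsSolvable ((Zp N).map (Int.castRingHom ℚ)).Gal) : Admissible r (N / 2) := by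
  have hrpos : 0 < r := hr.pos
  have hlg : ∀ x, x ≤ 2 * N → lg r x = x / r := by
    intro x hx
    unfold lg
    rw [Nat.div_eq_of_lt (show x < r ^ 2 by omega), add_zero]
  have hodd : r % 2 = 1 := hr.eq_two_or_odd.resolve_left hr2
  set ρ := N % r with hρ
  set u := min ρ (r - 1 - ρ) with hu
  have hρr : ρ < r := Nat.mod_lt _ hrpos
  have hu1 : u ≤ ρ := min_le_left _ _
  have hu2 : u ≤ r - 1 - ρ := min_le_right _ _
  have hNr : r * (N / r) + ρ = N := Nat.div_add_mod N r
  have hr23 : r ^ 2 ≤ r ^ 3 := Nat.pow_le_pow_right hrpos (by norm_num)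
  have h2r : ¬ r ∣ 2 := by
    intro h
    have := (Nat.prime_dvd_prime_iff_eq hr Nat.prime_two).1 h
    exact hr2 this
  -- the lower bound
  have hM : ∀ j, 2 * j ≤ N → 2 * j + r * (lg r (2 * j) + lg r (N - 2 * j)) ≤
      r * lg r (N + 2 * j) + u := by
    intro j hj
    rw [hlg _ (by omega), hlg _ (by omega), hlg _ (by omega)]
    set a := 2 * j with ha
    have e1 := Nat.div_add_mod a r
    have e2 := Nat.div_add_mod (N - a) r
    have e3 := Nat.div_add_mod (N + a) r
    have l1 := Nat.mod_lt a hrpos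
    have l2 := Nat.mod_lt (N - a) hrpos
    have l3 := Nat.mod_lt (N + a) hrpos
    have m1 : ((N - a) % r + a % r) % r = ρ := by
      rw [← Nat.add_mod, Nat.sub_add_cancel hj]
    have m2 : (ρ + a % r) % r = (N + a) % r := by
      rw [hρ, ← Nat.add_mod]
    have e4 : (N - a) % r + a % r = ρ ∨ (N - a) % r + a % r = ρ + r := by
      rcases Nat.lt_or_ge ((N - a) % r + a % r) r with h | h
      · left
        have h' := Nat.mod_eq_of_lt h
        omega
      · right
        have h' : ((N - a) % r + a % r) % r = (N - a) % r + a % r - r := by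
          rw [Nat.mod_eq_sub_mod h]; exact Nat.mod_eq_of_lt (by omega)
        omega
    have e5 : ρ + a % r = (N + a) % r ∨ ρ + a % r = (N + a) % r + r := by
      rcases Nat.lt_or_ge (ρ + a % r) r with h | h
      · left
        have h' := Nat.mod_eq_of_lt h
        omega
      · right
        have h' : (ρ + a % r) % r = ρ + a % r - r := by
          rw [Nat.mod_eq_sub_mod h]; exact Nat.mod_eq_of_lt (by omega)
        omega
    rw [mul_add]
    have hu3 : u = ρ ∨ u = r - 1 - ρ := by omega
    omega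
  have hE : ∀ j k, 2 * j = r * k + u → 2 * j ≤ N → 2 * j + r * (lg r (2 * j) + lg r (N - 2 * j)) =
      r * lg r (N + 2 * j) + u := by
    intro j k hjk hj
    rw [hlg _ (by omega), hlg _ (by omega), hlg _ (by omega), hjk]
    have hkK : k ≤ N / r := by
      have h1 : r * k ≤ N := by omega
      exact (Nat.le_div_iff_mul_le hrpos).2 (by rw [mul_comm]; exact h1)
    obtain ⟨d, hd⟩ := Nat.exists_eq_add_of_le hkK
    have hNd : N = r * k + r * d + ρ := by
      rw [← mul_add, ← hd]; exact hNr.symm
    have d1 : (r * k + u) / r = k := by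
      rw [Nat.mul_add_div hrpos, Nat.div_eq_of_lt (by omega), add_zero]
    have d2 : (N - (r * k + u)) / r = d := by
      have : N - (r * k + u) = r * d + (ρ - u) := by omega
      rw [this, Nat.mul_add_div hrpos, Nat.div_eq_of_lt (by omega), add_zero]
    have d3 : (N + (r * k + u)) / r = d + 2 * k := by
      have : N + (r * k + u) = r * (d + 2 * k) + (ρ + u) := by rw [mul_add, ← mul_assoc, mul_comm r 2, mul_assoc]; omega
      rw [this, Nat.mul_add_div hrpos, Nat.div_eq_of_lt (by omega), add_zero]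
    rw [d1, d2, d3, mul_add, mul_add, ← mul_assoc, mul_comm r 2, mul_assoc]
    omega
  -- the two points
  have hKr : r * (u % 2 + 2) ≤ r * (N / r) := Nat.mul_le_mul_left _ hK
  rcases Nat.mod_two_eq_zero_or_one u with h0 | h1
  · rw [h0] at hKr
    obtain ⟨j, hj⟩ : ∃ j, 2 * j = r * 0 + u := ⟨u / 2, by omega⟩
    have hj2 : 2 * (j + r) = r * 2 + u := by omega
    exact criterion hirr hr hr h2r (by omega) hM (j₁ := j) (j₂ := j + r) (by omega) (by omega)
      (by omega) (hE j 0 hj (by omega)) (hE (j + r) 2 hj2 (by omega)) hsol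
  · rw [h1] at hKr
    obtain ⟨j, hj⟩ : ∃ j, 2 * j = r * 1 + u := ⟨(r + u) / 2, by omega⟩
    have hj2 : 2 * (j + r) = r * 3 + u := by omega
    exact criterion hirr hr hr h2r (by omega) hM (j₁ := j) (j₂ := j + r) (by omega) (by omega)
      (by omega) (hE j 1 hj (by omega)) (hE (j + r) 3 hj2 (by omega)) hsol

/-- first non-admissibility criterion -/
lemma not_admissible_of_lt {r m : ℕ} (hr : r.Prime) (hr2 : r ≠ 2) (h1 : r < m) (h2 : m < 2 * r)
    (h3 : m - 1 ≠ r ∨ ∃ k, m = 2 * k ∧ k % 2 = 1 ∧ k ≠ 1) : ¬ Admissible r m := by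
  have hodd : r % 2 = 1 := hr.eq_two_or_odd.resolve_left hr2
  rintro (h | ⟨p, i, hp, hi, hpm, hrp⟩)
  · obtain ⟨c, hc⟩ := h
    have : c < 2 := by
      by_contra hcon
      have : r * 2 ≤ r * c := Nat.mul_le_mul_left _ (by omega)
      omega
    interval_cases c <;> omega
  · have hge : 2 ≤ p ^ i := by
      calc 2 ≤ p := hp.two_le
        _ = p ^ 1 := (pow_one p).symm
        _ ≤ p ^ i := Nat.pow_le_pow_right hp.pos hi
    have hrle : r ≤ p ^ i - 1 := Nat.le_of_dvd (by omega) hrp
    obtain ⟨c, hc⟩ := hpm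
    have hc1 : c = 1 := by
      have hc2 : c < 2 := by
        by_contra hcon
        have : p ^ i * 2 ≤ p ^ i * c := Nat.mul_le_mul_left _ (by omega)
        omega
      interval_cases c
      · omega
      · rfl
    rw [hc1, mul_one] at hc
    rw [← hc] at hrp
    obtain ⟨d, hd⟩ := hrp
    have hd1 : d = 1 := by
      have hd2 : d < 2 := by
        by_contra hcon
        have : r * 2 ≤ r * d := Nat.mul_le_mul_left _ (by omega)
        omega
      interval_cases d
      · omega
      · rfl
    rw [hd1, mul_one] at hd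
    rcases h3 with h3 | ⟨k, hk, hk1, hk2⟩
    · exact h3 hd
    · have h2p : 2 ∣ p ^ i := by rw [← hc, hk]; exact dvd_mul_right _ _
      have hp2 : p = 2 := ((Nat.prime_dvd_prime_iff_eq Nat.prime_two hp).1
        (Nat.prime_two.dvd_of_dvd_pow h2p)).symm
      have hki : k ∣ 2 ^ i := by rw [← hp2, ← hc, hk]; exact dvd_mul_left _ _
      obtain ⟨e, -, he⟩ := (Nat.dvd_prime_pow Nat.prime_two).1 hki
      rcases Nat.eq_zero_or_pos e with h | h
      · rw [h, pow_zero] at he; exact hk2 he
      · have : 2 ∣ k := by rw [he]; exact dvd_pow_self 2 (by omega)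
        omega

/-- structure of admissibility for large primes -/
lemma admissible_cases {r m : ℕ} (hr : r.Prime) (hr2 : r ≠ 2) (hm : 0 < m) (h4 : m ≤ 4 * r)
    (h : Admissible r m) : r ∣ m ∨ (∃ i, 0 < i ∧ 2 ^ i = r + 1 ∧ (r + 1) ∣ m) ∨
      (∃ p i, p.Prime ∧ p ^ i = 2 * r + 1 ∧ (2 * r + 1) ∣ m) ∨
      (∃ i, 0 < i ∧ 2 ^ i = 3 * r + 1 ∧ (3 * r + 1) ∣ m) := by
  have hodd : r % 2 = 1 := hr.eq_two_or_odd.resolve_left hr2
  rcases h with h | ⟨p, i, hp, hi, hpm, hrp⟩
  · exact Or.inl h
  · have hge : 2 ≤ p ^ i := by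
      calc 2 ≤ p := hp.two_le
        _ = p ^ 1 := (pow_one p).symm
        _ ≤ p ^ i := Nat.pow_le_pow_right hp.pos hi
    have hle : p ^ i ≤ m := Nat.le_of_dvd hm hpm
    obtain ⟨d, hd⟩ := hrp
    have hd4 : d < 4 := by
      by_contra hcon
      have : r * 4 ≤ r * d := Nat.mul_le_mul_left _ (by omega)
      omega
    have heven : p ^ i % 2 = 0 → p = 2 := fun h0 =>
      ((Nat.prime_dvd_prime_iff_eq Nat.prime_two hp).1
        (Nat.prime_two.dvd_of_dvd_pow (Nat.dvd_of_mod_eq_zero h0))).symm
    interval_cases d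
    · omega
    · have hp2 := heven (by omega)
      rw [hp2] at hd hge hpm
      have e : 2 ^ i = r + 1 := by omega
      exact Or.inr (Or.inl ⟨i, hi, e, e ▸ hpm⟩)
    · have e : p ^ i = 2 * r + 1 := by omega
      exact Or.inr (Or.inr (Or.inl ⟨p, i, hp, e, e ▸ hpm⟩))
    · have hp2 := heven (by omega)
      rw [hp2] at hd hge hpm
      have e : 2 ^ i = 3 * r + 1 := by omega
      exact Or.inr (Or.inr (Or.inr ⟨i, hi, e, e ▸ hpm⟩))

lemma not_admissible_simple {r m : ℕ} (hr : r.Prime) (hr2 : r ≠ 2) (hm : 0 < m) (h4 : m ≤ 4 * r)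
    (h0 : m % r ≠ 0) (h1 : m % (r + 1) ≠ 0) (h2 : m % (2 * r + 1) ≠ 0)
    (h3 : m % (3 * r + 1) ≠ 0) : ¬ Admissible r m := by
  intro h
  rcases admissible_cases hr hr2 hm h4 h with h | ⟨i, _, _, h⟩ | ⟨p, i, _, _, h⟩ | ⟨i, _, _, h⟩
  · exact h0 (Nat.mod_eq_zero_of_dvd h)
  · exact h1 (Nat.mod_eq_zero_of_dvd h)
  · exact h2 (Nat.mod_eq_zero_of_dvd h)
  · exact h3 (Nat.mod_eq_zero_of_dvd h)

/-- the auxiliary prime for even `N = 2m` -/
lemma exists_prime_even {m : ℕ} (hm : 9 ≤ m) : ∃ r, r.Prime ∧ r ≠ 2 ∧ m < 2 * r ∧ r < m ∧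
    4 * m < r ^ 2 ∧ ¬ Admissible r m := by
  rcases Nat.lt_or_ge m 14 with h14 | h14
  · rcases Nat.lt_or_ge m 13 with h13 | h13
    · refine ⟨7, by norm_num, by norm_num, by omega, by omega, by omega, ?_⟩
      exact not_admissible_of_lt (by norm_num) (by norm_num) (by omega) (by omega)
        (Or.inl (by omega))
    · refine ⟨11, by norm_num, by norm_num, by omega, by omega, by omega, ?_⟩
      exact not_admissible_of_lt (by norm_num) (by norm_num) (by omega) (by omega)
        (Or.inl (by omega))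
  · have hfin : ∀ r, r.Prime → m < 2 * r → r < m →
        (m - 1 ≠ r ∨ ∃ k, m = 2 * k ∧ k % 2 = 1 ∧ k ≠ 1) → ∃ r, r.Prime ∧ r ≠ 2 ∧ m < 2 * r ∧
        r < m ∧ 4 * m < r ^ 2 ∧ ¬ Admissible r m := by
      intro r hr h1 h2 h3
      refine ⟨r, hr, by omega, h1, h2, ?_, not_admissible_of_lt hr (by omega) h2 h1 h3⟩
      have h4 : (m + 1) * (m + 1) ≤ (2 * r) * (2 * r) := Nat.mul_le_mul (by omega) (by omega)
      nlinarith
    rcases Nat.even_or_odd' m with ⟨k, hk | hk⟩
    · rcases Nat.mod_two_eq_zero_or_one k with h0 | h1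
      · obtain ⟨r, hr, hr1, hr2⟩ := Nat.exists_prime_lt_and_le_two_mul (k - 1) (by omega)
        have hrk : r ≠ k := by
          intro h
          rw [h] at hr
          rcases hr.eq_two_or_odd with h | h <;> omega
        exact hfin r hr (by omega) (by omega) (Or.inl (by omega))
      · obtain ⟨r, hr, hr1, hr2⟩ := Nat.exists_prime_lt_and_le_two_mul k (by omega)
        have hrk : r ≠ 2 * k := by
          intro h
          rw [h] at hr
          rcases hr.eq_two_or_odd with h | h <;> omega
        exact hfin r hr (by omega) (by omega) (Or.inr ⟨k, hk, h1, by omega⟩)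
    · obtain ⟨r, hr, hr1, hr2⟩ := Nat.exists_prime_lt_and_le_two_mul k (by omega)
      have hrk : r ≠ 2 * k := by
        intro h
        rw [h] at hr
        rcases hr.eq_two_or_odd with h | h <;> omega
      exact hfin r hr (by omega) (by omega) (Or.inl (by omega))

/-- a finite table for odd `N = 2m+1` -/
lemma table_odd : ∀ m < 98, 16 ≤ m → ∃ r ∈ [11, 13, 17, 19, 23, 29, 31], 3 * r ≤ 2 * m + 1 ∧
    4 * m + 2 < r ^ 2 ∧ m ≤ 4 * r ∧ m % r ≠ 0 ∧ m % (r + 1) ≠ 0 ∧ m % (2 * r + 1) ≠ 0 ∧
    m % (3 * r + 1) ≠ 0 := by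
  decide

/-- the auxiliary prime for odd `N = 2m+1` -/
lemma exists_prime_odd {m : ℕ} (hm : 16 ≤ m) : ∃ r, r.Prime ∧ r ≠ 2 ∧ 3 * r ≤ 2 * m + 1 ∧
    4 * m + 2 < r ^ 2 ∧ ¬ Admissible r m := by
  rcases Nat.lt_or_ge m 98 with h98 | h98
  · obtain ⟨r, hr, h1, h2, h3, h4, h5, h6, h7⟩ := table_odd m h98 hm
    have hrp : r.Prime := by
      simp only [List.mem_cons, List.not_mem_nil, or_false] at hr
      rcases hr with rfl | rfl | rfl | rfl | rfl | rfl | rfl <;> norm_num
    have hr2 : r ≠ 2 := by
      rintro rfl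
      simp at hr
    exact ⟨r, hrp, hr2, h1, h2, not_admissible_simple hrp hr2 (by omega) h3 h4 h5 h6 h7⟩
  · obtain ⟨r, hr, hra, hrb⟩ := Nat.exists_prime_lt_and_le_two_mul ((2 * m + 1) / 6) (by omega)
    have hr1 : 3 * r ≤ 2 * m + 1 := by omega
    have hr1' : m + 1 ≤ 3 * r := by omega
    have hr2 : r ≠ 2 := by omega
    have hodd : r % 2 = 1 := hr.eq_two_or_odd.resolve_left hr2
    by_cases hA : Admissible r m
    · obtain ⟨s, hs, hsa, hsb⟩ := Nat.exists_prime_lt_and_le_two_mul ((r - 1) / 2) (by omega)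
      have hs1 : r + 1 ≤ 2 * s := by omega
      have hs17 : 17 ≤ s := by omega
      have hs2 : s ≠ 2 := by omega
      have hsodd : s % 2 = 1 := hs.eq_two_or_odd.resolve_left hs2
      have hs3 : s + 2 ≤ r := by omega
      have hm1 := admissible_cases hr hr2 (by omega) (by omega) hA
      -- the three possibilities for `m`
      have hcase : m = 2 * r ∨ (m = 2 * r + 1 ∧ ∃ p i : ℕ, p.Prime ∧ p ^ i = m) ∨
          (m = 2 * r + 2 ∧ ∃ i : ℕ, 2 ^ i = m) := by
        rcases hm1 with ⟨c, hc⟩ | ⟨i, _, hi, ⟨c, hc⟩⟩ | ⟨p, i, hp, hi, ⟨c, hc⟩⟩ | ⟨i, _, hi, ⟨c, hc⟩⟩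
        · left
          have : c < 3 := by
            by_contra hcon
            have : r * 3 ≤ r * c := Nat.mul_le_mul_left _ (by omega)
            omega
          interval_cases c <;> omega
        · right; right
          have hc3 : c < 3 := by
            by_contra hcon
            have : (r + 1) * 3 ≤ (r + 1) * c := Nat.mul_le_mul_left _ (by omega)
            omega
          have hc2 : c = 2 := by interval_cases c <;> omega
          subst hc2
          refine ⟨by omega, i + 1, ?_⟩
          rw [pow_succ, hi, hc]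
        · right; left
          have hc3 : c < 2 := by
            by_contra hcon
            have : (2 * r + 1) * 2 ≤ (2 * r + 1) * c := Nat.mul_le_mul_left _ (by omega)
            omega
          have hc2 : c = 1 := by interval_cases c <;> omega
          subst hc2
          exact ⟨by omega, p, i, hp, by omega⟩
        · exfalso
          have hc3 : c < 1 := by
            by_contra hcon
            have : (3 * r + 1) * 1 ≤ (3 * r + 1) * c := Nat.mul_le_mul_left _ (by omega)
            omega
          interval_cases c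
          omega
      refine ⟨s, hs, hs2, by omega, ?_, ?_⟩
      · have : 17 * s ≤ s ^ 2 := by rw [sq]; exact Nat.mul_le_mul_right _ hs17
        omega
      intro hB
      have hm2 := admissible_cases hs hs2 (by omega) (by omega) hB
      have hcase2 : m = 3 * s ∨ m = 4 * s ∨ m = 3 * (s + 1) ∨
          (m = 3 * s + 1 ∧ ∃ i : ℕ, 2 ^ i = m) := by
        rcases hm2 with ⟨c, hc⟩ | ⟨i, _, hi, ⟨c, hc⟩⟩ | ⟨p, i, hp, hi, ⟨c, hc⟩⟩ | ⟨i, _, hi, ⟨c, hc⟩⟩
        · have : c < 5 := by
            by_contra hcon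
            have : s * 5 ≤ s * c := Nat.mul_le_mul_left _ (by omega)
            omega
          interval_cases c <;> omega
        · have hc3 : c < 4 := by
            by_contra hcon
            have : (s + 1) * 4 ≤ (s + 1) * c := Nat.mul_le_mul_left _ (by omega)
            omega
          interval_cases c <;> omega
        · exfalso
          have hc3 : c < 2 := by
            by_contra hcon
            have : (2 * s + 1) * 2 ≤ (2 * s + 1) * c := Nat.mul_le_mul_left _ (by omega)
            omega
          interval_cases c <;> omega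
        · right; right; right
          have hc3 : c < 2 := by
            by_contra hcon
            have : (3 * s + 1) * 2 ≤ (3 * s + 1) * c := Nat.mul_le_mul_left _ (by omega)
            omega
          have hc2 : c = 1 := by interval_cases c <;> omega
          subst hc2
          exact ⟨by omega, i, by omega⟩
      have hr3 : ¬ 3 ∣ r := by
        intro h
        have := (Nat.prime_dvd_prime_iff_eq Nat.prime_three hr).1 h
        omega
      have hs3' : ¬ 3 ∣ s := by
        intro h
        have := (Nat.prime_dvd_prime_iff_eq Nat.prime_three hs).1 h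
        omega
      have h2pow : ∀ i : ℕ, 2 ^ i = m → ¬ 3 ∣ m := by
        intro i hi h3
        rw [← hi] at h3
        have := (Nat.prime_dvd_prime_iff_eq Nat.prime_three Nat.prime_two).1
          (Nat.prime_three.dvd_of_dvd_pow h3)
        omega
      rcases hcase with h | ⟨h, p, i, hp, hpi⟩ | ⟨h, i, hi⟩
      · rcases hcase2 with h' | h' | h' | ⟨h', i, hi⟩
        · omega
        · omega
        · omega
        · -- `2 r = 2^i`
          have h1 : r ∣ 2 ^ i := by rw [hi, h]; exact dvd_mul_left _ _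
          have := (Nat.prime_dvd_prime_iff_eq hr Nat.prime_two).1 (hr.dvd_of_dvd_pow h1)
          omega
      · rcases hcase2 with h' | h' | h' | ⟨h', i', hi'⟩
        · -- `p^i = 3 s`
          have h1 : s ∣ p ^ i := by rw [hpi, h']; exact dvd_mul_left _ _
          have h2 : 3 ∣ p ^ i := by rw [hpi, h']; exact dvd_mul_right _ _
          have h3 := (Nat.prime_dvd_prime_iff_eq hs hp).1 (hs.dvd_of_dvd_pow h1)
          have h4 := (Nat.prime_dvd_prime_iff_eq Nat.prime_three hp).1
            (Nat.prime_three.dvd_of_dvd_pow h2)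
          omega
        · omega
        · omega
        · omega
      · rcases hcase2 with h' | h' | h' | ⟨h', i', hi'⟩
        · exact h2pow i hi ⟨s, h'⟩
        · have h1 : s ∣ 2 ^ i := by rw [hi, h']; exact dvd_mul_left _ _
          have := (Nat.prime_dvd_prime_iff_eq hs Nat.prime_two).1 (hs.dvd_of_dvd_pow h1)
          omega
        · exact h2pow i hi ⟨s + 1, h'⟩
        · -- `2^i = 3 s + 1`
          rcases Nat.even_or_odd' i with ⟨b, hb | hb⟩
          · have e : (2 ^ b - 1) * (2 ^ b + 1) = 3 * s := by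
              have h1 : (2 ^ b) * (2 ^ b) = m := by rw [← pow_add, ← two_mul, ← hb]; exact hi
              have h2 : 1 ≤ 2 ^ b := Nat.one_le_two_pow
              obtain ⟨t, ht⟩ := Nat.exists_eq_add_of_le h2
              rw [ht] at h1 ⊢
              have : 1 + t - 1 = t := by omega
              rw [this]
              nlinarith
            have hlt : 2 ^ b ≥ 5 := by
              by_contra hcon
              have h1 : (2 ^ b) * (2 ^ b) = m := by rw [← pow_add, ← two_mul, ← hb]; exact hi
              nlinarith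
            have hsd : s ∣ (2 ^ b - 1) * (2 ^ b + 1) := by rw [e]; exact dvd_mul_left _ _
            rcases (Nat.Prime.dvd_mul hs).1 hsd with h1 | h1
            · have h2 : s ≤ 2 ^ b - 1 := Nat.le_of_dvd (by omega) h1
              have h3 : s * (2 ^ b + 1) ≤ (2 ^ b - 1) * (2 ^ b + 1) := Nat.mul_le_mul_right _ h2
              have h4 : s * 6 ≤ s * (2 ^ b + 1) := Nat.mul_le_mul_left _ (by omega)
              omega
            · have h2 : s ≤ 2 ^ b + 1 := Nat.le_of_dvd (by omega) h1
              have h3 : (2 ^ b - 1) * s ≤ (2 ^ b - 1) * (2 ^ b + 1) := Nat.mul_le_mul_left _ h2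
              have h4 : 4 * s ≤ (2 ^ b - 1) * s := Nat.mul_le_mul_right _ (by omega)
              omega
          · -- odd exponent: `2^i ≡ 2 mod 3`
            have h1 : (2 : ℕ) ^ i % 3 = 2 := by
              rw [hb, pow_succ, pow_mul, Nat.mul_mod, Nat.pow_mod]
              norm_num
            rw [hi, h'] at h1
            omega
    · refine ⟨r, hr, hr2, hr1, ?_, hA⟩
      have : 33 * r ≤ r ^ 2 := by rw [sq]; exact Nat.mul_le_mul_right _ (by omega)
      omega

end Pool.Agent.Lib.MP_ff3579_an
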