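import Mathlib
import Pool.Agent.Lib.MP_ff3579_an.Primes

/-! Non-solvability for `N + 1` prime or `N + 2` prime. -/

set_option autoImplicit false

open Polynomial

namespace Pool.Agent.Lib.MP_ff3579_an

/-- explicit criterion for small `N` -/
lemma explicit {N p r s c : ℕ} (j₁ j₂ : ℕ) (hirr : Irreducible (Zp N)) (hp : p.Prime)
    (hr : r.Prime) (hs : ¬ r ∣ s) (hN : 2 * N < p ^ 3)
    (hM : ∀ j < N / 2 + 1, s * j + r * (lg p (2 * j) + lg p (N - 2 * j)) ≤
      r * lg p (N + 2 * j) + c)
    (hne : j₁ ≠ j₂) (hj₁ : 2 * j₁ ≤ N) (hj₂ : 2 * j₂ ≤ N)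
    (h1 : s * j₁ + r * (lg p (2 * j₁) + lg p (N - 2 * j₁)) = r * lg p (N + 2 * j₁) + c)
    (h2 : s * j₂ + r * (lg p (2 * j₂) + lg p (N - 2 * j₂)) = r * lg p (N + 2 * j₂) + c)
    (hA : ¬ Admissible r (N / 2)) :
    ¬ Group.IsSolvable ((Zp N).map (Int.castRingHom ℚ)).Gal := fun hsol =>
  hA (criterion hirr hp hr hs hN (fun j hj => hM j (by omega)) hne hj₁ hj₂ h1 h2 hsol)

lemma not_solvable_11 : ¬ Group.IsSolvable ((Zp 11).map (Int.castRingHom ℚ)).Gal := by
  have hirr : Irreducible (Zp 11) :=
    Zp_irreducible (q := 13) (by norm_num) (by norm_num) (by norm_num) (by norm_num)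
  exact explicit (p := 5) (r := 3) (s := 1) (c := 0) 0 3 hirr (by norm_num) (by norm_num)
    (by norm_num) (by norm_num) (by decide) (by norm_num) (by norm_num) (by norm_num)
    (by decide) (by decide)
    (not_admissible_simple (by norm_num) (by norm_num) (by norm_num) (by norm_num) (by norm_num)
      (by norm_num) (by norm_num) (by norm_num))

lemma not_solvable_12 : ¬ Group.IsSolvable ((Zp 12).map (Int.castRingHom ℚ)).Gal := by
  have hirr : Irreducible (Zp 12) :=
    Zp_irreducible (q := 13) (by norm_num) (by norm_num) (by norm_num) (by norm_num)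
  exact explicit (p := 5) (r := 5) (s := 2) (c := 2) 1 6 hirr (by norm_num) (by norm_num)
    (by norm_num) (by norm_num) (by decide) (by norm_num) (by norm_num) (by norm_num)
    (by decide) (by decide)
    (not_admissible_of_lt (by norm_num) (by norm_num) (by norm_num) (by norm_num)
      (Or.inr ⟨3, by norm_num, by norm_num, by norm_num⟩))

lemma not_solvable_15 : ¬ Group.IsSolvable ((Zp 15).map (Int.castRingHom ℚ)).Gal := by
  have hirr : Irreducible (Zp 15) :=
    Zp_irreducible (q := 17) (by norm_num) (by norm_num) (by norm_num) (by norm_num)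
  exact explicit (p := 11) (r := 5) (s := 1) (c := 2) 2 7 hirr (by norm_num) (by norm_num)
    (by norm_num) (by norm_num) (by decide) (by norm_num) (by norm_num) (by norm_num)
    (by decide) (by decide)
    (not_admissible_simple (by norm_num) (by norm_num) (by norm_num) (by norm_num) (by norm_num)
      (by norm_num) (by norm_num) (by norm_num))

lemma not_solvable_16 : ¬ Group.IsSolvable ((Zp 16).map (Int.castRingHom ℚ)).Gal := by
  have hirr : Irreducible (Zp 16) :=
    Zp_irreducible (q := 17) (by norm_num) (by norm_num) (by norm_num) (by norm_num)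
  exact explicit (p := 5) (r := 5) (s := 3) (c := 4) 3 8 hirr (by norm_num) (by norm_num)
    (by norm_num) (by norm_num) (by decide) (by norm_num) (by norm_num) (by norm_num)
    (by decide) (by decide)
    (not_admissible_simple (by norm_num) (by norm_num) (by norm_num) (by norm_num) (by norm_num)
      (by norm_num) (by norm_num) (by norm_num))

lemma not_solvable_17 : ¬ Group.IsSolvable ((Zp 17).map (Int.castRingHom ℚ)).Gal := by
  have hirr : Irreducible (Zp 17) :=
    Zp_irreducible (q := 19) (by norm_num) (by norm_num) (by norm_num) (by norm_num)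
  exact explicit (p := 5) (r := 5) (s := 3) (c := 4) 3 8 hirr (by norm_num) (by norm_num)
    (by norm_num) (by norm_num) (by decide) (by norm_num) (by norm_num) (by norm_num)
    (by decide) (by decide)
    (not_admissible_simple (by norm_num) (by norm_num) (by norm_num) (by norm_num) (by norm_num)
      (by norm_num) (by norm_num) (by norm_num))

lemma not_solvable_21 : ¬ Group.IsSolvable ((Zp 21).map (Int.castRingHom ℚ)).Gal := by
  have hirr : Irreducible (Zp 21) :=
    Zp_irreducible (q := 23) (by norm_num) (by norm_num) (by norm_num) (by norm_num)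
  exact fun hsol => not_admissible_simple (r := 7) (m := 10) (by norm_num) (by norm_num)
    (by norm_num) (by norm_num) (by norm_num) (by norm_num) (by norm_num) (by norm_num)
    (standard hirr (by norm_num) (by norm_num) (by norm_num) (by decide) hsol)

lemma not_solvable_27 : ¬ Group.IsSolvable ((Zp 27).map (Int.castRingHom ℚ)).Gal := by
  have hirr : Irreducible (Zp 27) :=
    Zp_irreducible (q := 29) (by norm_num) (by norm_num) (by norm_num) (by norm_num)
  exact explicit (p := 23) (r := 11) (s := 1) (c := 2) 2 13 hirr (by norm_num) (by norm_num)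
    (by norm_num) (by norm_num) (by decide) (by norm_num) (by norm_num) (by norm_num)
    (by decide) (by decide)
    (not_admissible_simple (by norm_num) (by norm_num) (by norm_num) (by norm_num) (by norm_num)
      (by norm_num) (by norm_num) (by norm_num))

lemma not_solvable_29 : ¬ Group.IsSolvable ((Zp 29).map (Int.castRingHom ℚ)).Gal := by
  have hirr : Irreducible (Zp 29) :=
    Zp_irreducible (q := 31) (by norm_num) (by norm_num) (by norm_num) (by norm_num)
  exact explicit (p := 23) (r := 11) (s := 1) (c := 3) 3 14 hirr (by norm_num) (by norm_num)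
    (by norm_num) (by norm_num) (by decide) (by norm_num) (by norm_num) (by norm_num)
    (by decide) (by decide)
    (not_admissible_simple (by norm_num) (by norm_num) (by norm_num) (by norm_num) (by norm_num)
      (by norm_num) (by norm_num) (by norm_num))

theorem not_solvable {N q : ℕ} (hN : 11 ≤ N) (hq : q.Prime) (h : q = N + 1 ∨ q = N + 2) :
    ¬ Group.IsSolvable ((Zp N).map (Int.castRingHom ℚ)).Gal := by
  have hirr : Irreducible (Zp N) := Zp_irreducible (by omega) hq (by omega) (by omega)
  have hqodd : q % 2 = 1 := hq.eq_two_or_odd.resolve_left (by omega)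
  rcases h with h | h
  · -- even case
    rcases Nat.lt_or_ge N 18 with h18 | h18
    · interval_cases N
      · omega
      · exact not_solvable_12
      · omega
      · subst h; norm_num at hq
      · omega
      · exact not_solvable_16
      · omega
    · obtain ⟨m, hm⟩ : ∃ m, N = 2 * m := ⟨N / 2, by omega⟩
      have hm2 : N / 2 = m := by omega
      obtain ⟨r, hr, hr2, h1, h2, h3, hA⟩ := exists_prime_even (m := m) (by omega)
      intro hsol
      apply hA
      rw [← hm2]
      refine standard hirr hr hr2 (by omega) ?_ hsol
      have hodd : r % 2 = 1 := hr.eq_two_or_odd.resolve_left hr2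
      have hdm := Nat.div_add_mod N r
      have hlt := Nat.mod_lt N hr.pos
      have hge2 : 2 ≤ N / r := (Nat.le_div_iff_mul_le hr.pos).2 (by omega)
      rcases Nat.lt_or_ge (N / r) 3 with h4 | h4
      · have h5 : N / r = 2 := by omega
        rw [h5] at hdm ⊢
        omega
      · omega
  · -- odd case
    rcases Nat.lt_or_ge N 33 with h33 | h33
    · have hNodd : N % 2 = 1 := by omega
      interval_cases N
      · exact not_solvable_11
      · omega
      · subst h; norm_num at hq
      · omega
      · exact not_solvable_15
      · omega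
      · exact not_solvable_17
      · omega
      · subst h; norm_num at hq
      · omega
      · exact not_solvable_21
      · omega
      · subst h; norm_num at hq
      · omega
      · subst h; norm_num at hq
      · omega
      · exact not_solvable_27
      · omega
      · exact not_solvable_29
      · omega
      · subst h; norm_num at hq
      · omega
    · obtain ⟨m, hm⟩ : ∃ m, N = 2 * m + 1 := ⟨N / 2, by omega⟩
      have hm2 : N / 2 = m := by omega
      obtain ⟨r, hr, hr2, h1, h2, hA⟩ := exists_prime_odd (m := m) (by omega)
      intro hsol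
      apply hA
      rw [← hm2]
      refine standard hirr hr hr2 (by omega) ?_ hsol
      have hge3 : 3 ≤ N / r := (Nat.le_div_iff_mul_le hr.pos).2 (by omega)
      omega

end Pool.Agent.Lib.MP_ff3579_an
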